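import Mathlib

set_option autoImplicit false

/-!
# Random splittings
-/

namespace Pool.Agent.TH559.LE

open Finset

variable {α : Type} [DecidableEq α]

theorem num_tail (p t N m lam x : ℝ) (hp0 : 0 ≤ p) (hp1 : p ≤ 1) (hN : 0 < N) (hm0 : 0 ≤ m)
    (hm : m ≤ N) (hlam : lam = t / (2 * N)) (ht : 0 < t) (hx : x = Real.exp (-lam)) :
    lam * (p * m - t) - p * (1 - x) * m ≤ -(t ^ 2 / (4 * N)) := by
  have hl0 : 0 < lam := by rw [hlam]; positivity
  have h1 : lam + 1 ≤ Real.exp lam := Real.add_one_le_exp lam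
  have hx1 : x * Real.exp lam = 1 := by
    rw [hx, ← Real.exp_add]; simp
  have hx0 : 0 < x := by rw [hx]; exact Real.exp_pos _
  have h2 : x * (1 + lam) ≤ 1 := by nlinarith
  have h3 : lam - lam ^ 2 ≤ 1 - x := by
    have : x ≤ 1 - lam + lam ^ 2 := by
      have h4 : 1 ≤ (1 - lam + lam ^ 2) * (1 + lam) := by nlinarith [pow_pos hl0 3]
      nlinarith
    linarith
  have h4 : lam * (p * m - t) - p * (1 - x) * m ≤ lam * (p * m - t) - p * (lam - lam ^ 2) * m := by
    have : p * (lam - lam ^ 2) * m ≤ p * (1 - x) * m := by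
      apply mul_le_mul_of_nonneg_right _ hm0
      exact mul_le_mul_of_nonneg_left h3 hp0
    linarith
  have h5 : p * m ≤ N := by nlinarith
  have h6 : lam * (p * m - t) - p * (lam - lam ^ 2) * m = - lam * t + p * m * lam ^ 2 := by ring
  have h7 : p * m * lam ^ 2 ≤ N * lam ^ 2 := mul_le_mul_of_nonneg_right h5 (sq_nonneg _)
  have h8 : - lam * t + N * lam ^ 2 = -(t ^ 2 / (4 * N)) := by
    rw [hlam]; field_simp; ring
  linarith

/-- The lower tail for a random subset of density `p`. -/
theorem tail1 (M L : Finset α) (hL : L ⊆ M) (p t N : ℝ) (hp0 : 0 ≤ p) (hp1 : p ≤ 1) (ht : 0 < t)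
    (hN : 0 < N) (hLN : (L.card : ℝ) ≤ N) :
    ∑ S ∈ M.powerset, (if ((L ∩ S).card : ℝ) < p * L.card - t then
      p ^ S.card * (1 - p) ^ (M \ S).card else 0) ≤ Real.exp (-(t ^ 2 / (4 * N))) := by
  set lam : ℝ := t / (2 * N) with hlam
  have hl0 : 0 < lam := by rw [hlam]; positivity
  set x : ℝ := Real.exp (-lam) with hx
  have hx0 : 0 < x := Real.exp_pos _
  have h1 : ∀ S ∈ M.powerset, (if ((L ∩ S).card : ℝ) < p * L.card - t then
      p ^ S.card * (1 - p) ^ (M \ S).card else 0) ≤
      Real.exp (lam * (p * L.card - t)) *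
        ((∏ i ∈ S, p * (if i ∈ L then x else 1)) * ∏ i ∈ M \ S, (1 - p)) := by
    intro S _
    have e1 : (∏ i ∈ S, p * (if i ∈ L then x else 1)) = p ^ S.card * x ^ (L ∩ S).card := by
      rw [Finset.prod_mul_distrib, Finset.prod_const, Finset.prod_ite_mem, Finset.prod_const,
        Finset.inter_comm]
    have e2 : (∏ _i ∈ M \ S, (1 - p)) = (1 - p) ^ (M \ S).card := by rw [Finset.prod_const]
    rw [e1, e2]
    have q0 : 0 ≤ 1 - p := by linarith
    have hpos : 0 ≤ p ^ S.card * (1 - p) ^ (M \ S).card := by positivity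
    split_ifs with hc
    · have e3 : 1 ≤ Real.exp (lam * (p * L.card - t)) * x ^ (L ∩ S).card := by
        rw [hx, ← Real.exp_nat_mul, ← Real.exp_add]
        apply Real.one_le_exp
        nlinarith
      calc p ^ S.card * (1 - p) ^ (M \ S).card =
          1 * (p ^ S.card * (1 - p) ^ (M \ S).card) := by ring
        _ ≤ (Real.exp (lam * (p * L.card - t)) * x ^ (L ∩ S).card) *
            (p ^ S.card * (1 - p) ^ (M \ S).card) := mul_le_mul_of_nonneg_right e3 hpos
        _ = _ := by ring
    · positivity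
  refine (Finset.sum_le_sum h1).trans ?_
  rw [← Finset.mul_sum, ← Finset.prod_add]
  have h2 : ∏ i ∈ M, (p * (if i ∈ L then x else 1) + (1 - p)) = (1 - p * (1 - x)) ^ L.card := by
    have e1 : ∀ i ∈ M, (p * (if i ∈ L then x else 1) + (1 - p)) =
        (if i ∈ L then (1 - p * (1 - x)) else 1) := by
      intro i _
      split_ifs <;> ring
    rw [Finset.prod_congr rfl e1, Finset.prod_ite_mem, Finset.prod_const,
      Finset.inter_eq_right.2 hL]
  rw [h2]
  have hx1 : x ≤ 1 := by rw [hx]; exact Real.exp_le_one_iff.2 (by linarith)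
  have h3 : (1 - p * (1 - x)) ^ L.card ≤ Real.exp (-(p * (1 - x)) * L.card) := by
    have e1 : 1 - p * (1 - x) ≤ Real.exp (-(p * (1 - x))) := by
      have := Real.add_one_le_exp (-(p * (1 - x)))
      linarith
    have e0 : 0 ≤ 1 - p * (1 - x) := by nlinarith
    calc (1 - p * (1 - x)) ^ L.card ≤ (Real.exp (-(p * (1 - x)))) ^ L.card :=
          pow_le_pow_left₀ e0 e1 _
      _ = Real.exp (-(p * (1 - x)) * L.card) := by
          rw [← Real.exp_nat_mul]; ring_nf
  calc Real.exp (lam * (p * L.card - t)) * (1 - p * (1 - x)) ^ L.card ≤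
      Real.exp (lam * (p * L.card - t)) * Real.exp (-(p * (1 - x)) * L.card) :=
        mul_le_mul_of_nonneg_left h3 (Real.exp_pos _).le
    _ = Real.exp (lam * (p * L.card - t) - p * (1 - x) * L.card) := by
        rw [← Real.exp_add]; ring_nf
    _ ≤ _ := by
        apply Real.exp_le_exp.2
        exact num_tail p t N L.card lam x hp0 hp1 hN (by positivity) hLN hlam ht hx

/-- The lower tail for the complement of a random subset of density `p`. -/
theorem tail2 (M L : Finset α) (hL : L ⊆ M) (p t N : ℝ) (hp0 : 0 ≤ p) (hp1 : p ≤ 1) (ht : 0 < t)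
    (hN : 0 < N) (hLN : (L.card : ℝ) ≤ N) :
    ∑ S ∈ M.powerset, (if ((L \ S).card : ℝ) < (1 - p) * L.card - t then
      p ^ S.card * (1 - p) ^ (M \ S).card else 0) ≤ Real.exp (-(t ^ 2 / (4 * N))) := by
  refine le_trans (le_of_eq ?_) (tail1 M L hL (1 - p) t N (by linarith) (by linarith) ht hN hLN)
  refine Finset.sum_bij' (fun S _ => M \ S) (fun S _ => M \ S) ?_ ?_ ?_ ?_ ?_
  · intro S _
    rw [Finset.mem_powerset]
    exact Finset.sdiff_subset
  · intro S _
    rw [Finset.mem_powerset]
    exact Finset.sdiff_subset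
  · intro S hS
    exact Finset.sdiff_sdiff_eq_self (Finset.mem_powerset.1 hS)
  · intro S hS
    exact Finset.sdiff_sdiff_eq_self (Finset.mem_powerset.1 hS)
  · intro S hS
    have e1 : L ∩ (M \ S) = L \ S := by
      ext i
      simp only [mem_inter, mem_sdiff]
      constructor
      · rintro ⟨h1, h2, h3⟩
        exact ⟨h1, h3⟩
      · rintro ⟨h1, h2⟩
        exact ⟨h1, hL h1, h2⟩
    rw [e1, Finset.sdiff_sdiff_eq_self (Finset.mem_powerset.1 hS)]
    have e2 : 1 - (1 - p) = p := by ring
    rw [e2, mul_comm (p ^ S.card)]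

/-- Splitting many small sets at the same time. -/
theorem split {ι : Type} (J : Finset ι) (L : ι → Finset α) (p t N : ℝ) (hp0 : 0 ≤ p)
    (hp1 : p ≤ 1) (ht : 0 < t) (hN : 0 < N) (hLN : ∀ j ∈ J, ((L j).card : ℝ) ≤ N)
    (hJ : 2 * J.card * Real.exp (-(t ^ 2 / (4 * N))) < 1) :
    ∃ S : Finset α, ∀ j ∈ J, p * (L j).card - t ≤ (L j ∩ S).card ∧
      (1 - p) * (L j).card - t ≤ (L j \ S).card := by
  by_contra hcon
  push Not at hcon
  set M : Finset α := J.biUnion L with hM
  have hLM : ∀ j ∈ J, L j ⊆ M := fun j hj => Finset.subset_biUnion_of_mem L hj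
  have h1 : ∀ S ∈ M.powerset, p ^ S.card * (1 - p) ^ (M \ S).card ≤
      ∑ j ∈ J, ((if ((L j ∩ S).card : ℝ) < p * (L j).card - t then
        p ^ S.card * (1 - p) ^ (M \ S).card else 0) +
        (if ((L j \ S).card : ℝ) < (1 - p) * (L j).card - t then
        p ^ S.card * (1 - p) ^ (M \ S).card else 0)) := by
    intro S _
    have q0 : 0 ≤ 1 - p := by linarith
    have hpos : 0 ≤ p ^ S.card * (1 - p) ^ (M \ S).card := by positivity
    obtain ⟨j, hj, h⟩ := hcon S
    have hnn : ∀ i ∈ J, 0 ≤ ((if ((L i ∩ S).card : ℝ) < p * (L i).card - t then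
        p ^ S.card * (1 - p) ^ (M \ S).card else 0) +
        (if ((L i \ S).card : ℝ) < (1 - p) * (L i).card - t then
        p ^ S.card * (1 - p) ^ (M \ S).card else 0)) := by
      intro i _
      apply add_nonneg
      · split_ifs
        · exact hpos
        · exact le_rfl
      · split_ifs
        · exact hpos
        · exact le_rfl
    refine le_trans ?_ (Finset.single_le_sum hnn hj)
    by_cases hc : p * (L j).card - t ≤ (L j ∩ S).card
    · have h2 := h hc
      rw [if_neg (not_lt.2 hc), if_pos h2, zero_add]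
    · rw [if_pos (not_le.1 hc)]
      have : 0 ≤ (if ((L j \ S).card : ℝ) < (1 - p) * (L j).card - t then
        p ^ S.card * (1 - p) ^ (M \ S).card else 0) := by
        split_ifs
        · exact hpos
        · exact le_rfl
      linarith
  have h2 : ∑ S ∈ M.powerset, p ^ S.card * (1 - p) ^ (M \ S).card = 1 := by
    have := Finset.prod_add (fun _ : α => p) (fun _ : α => 1 - p) M
    simp only [Finset.prod_const] at this
    rw [← this]
    have e : p + (1 - p) = 1 := by ring
    rw [e, one_pow]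
  have h3 := Finset.sum_le_sum h1
  rw [h2, Finset.sum_comm] at h3
  have h4 : ∑ j ∈ J, ∑ S ∈ M.powerset, ((if ((L j ∩ S).card : ℝ) < p * (L j).card - t then
        p ^ S.card * (1 - p) ^ (M \ S).card else 0) +
        (if ((L j \ S).card : ℝ) < (1 - p) * (L j).card - t then
        p ^ S.card * (1 - p) ^ (M \ S).card else 0)) ≤
      ∑ j ∈ J, (2 * Real.exp (-(t ^ 2 / (4 * N)))) := by
    apply Finset.sum_le_sum
    intro j hj
    rw [Finset.sum_add_distrib]
    have a1 := tail1 M (L j) (hLM j hj) p t N hp0 hp1 ht hN (hLN j hj)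
    have a2 := tail2 M (L j) (hLM j hj) p t N hp0 hp1 ht hN (hLN j hj)
    linarith
  rw [Finset.sum_const, nsmul_eq_mul] at h4
  linarith

end Pool.Agent.TH559.LE
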