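import Mathlib
import Pool.Agent.H150R2.Konig

set_option autoImplicit false

/-!
# List edge colourings of bipartite graphs with short lists

`K1` is König's edge colouring theorem (the proof is that of `Pool.Agent.H162R2.AG.K1`), `kernel`
and `galvin` are the kernel lemma and Galvin's argument (the proofs are those of
`Pool.Agent.Results.MP_fbd69e_co.OddStars`). `bkw` is a one-sided form of the theorem of Borodin,
Kostochka and Woodall: the lists of the edges at `x` have at least `ℓ x` members, where `ℓ x` is at
least the degree of `x` and of all neighbours of `x`.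
-/

namespace Pool.Agent.TH559.LE

open Finset

section Konig

private theorem k1_fill {V : Type} [Fintype V] [DecidableEq V] (D : ℕ) : ∀ (t : ℕ) (M : V → V → ℕ),
    (∀ v, ∑ w, M v w ≤ D) → (∀ w, ∑ v, M v w ≤ D) →
    (∑ v, ∑ w, M v w) + t = D * Fintype.card V →
    ∃ M' : V → V → ℕ, (∀ v w, M v w ≤ M' v w) ∧ (∀ v, ∑ w, M' v w = D) ∧
      (∀ w, ∑ v, M' v w = D) := by
  intro t
  induction t with
  | zero =>
    intro M hr hc ht
    have hD : ∑ _v : V, D = D * Fintype.card V := by simp [mul_comm]
    refine ⟨M, fun _ _ => le_rfl, ?_, ?_⟩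
    · have h1 : ∑ v, ∑ w, M v w = ∑ _v : V, D := by rw [hD]; simpa using ht
      exact fun v => (Finset.sum_eq_sum_iff_of_le (fun v _ => hr v)).1 h1 v (mem_univ v)
    · have h1 : ∑ w, ∑ v, M v w = ∑ _w : V, D := by
        rw [Finset.sum_comm, hD]; simpa using ht
      exact fun w => (Finset.sum_eq_sum_iff_of_le (fun w _ => hc w)).1 h1 w (mem_univ w)
  | succ t ih =>
    intro M hr hc ht
    have hD : ∑ _v : V, D = D * Fintype.card V := by simp [mul_comm]
    obtain ⟨v, -, hv⟩ : ∃ v ∈ (univ : Finset V), ∑ w, M v w < D := by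
      apply Finset.exists_lt_of_sum_lt
      rw [hD]; omega
    obtain ⟨w, -, hw⟩ : ∃ w ∈ (univ : Finset V), ∑ v, M v w < D := by
      apply Finset.exists_lt_of_sum_lt
      rw [hD, Finset.sum_comm]; omega
    set M1 : V → V → ℕ := fun a b => M a b + if a = v then (if b = w then 1 else 0) else 0
      with hM1
    have hrow : ∀ a, ∑ b, M1 a b = ∑ b, M a b + if a = v then 1 else 0 := by
      intro a
      rw [hM1, Finset.sum_add_distrib]
      congr 1
      by_cases h : a = v <;> simp [h]
    have hcol : ∀ b, ∑ a, M1 a b = ∑ a, M a b + if b = w then 1 else 0 := by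
      intro b
      rw [hM1, Finset.sum_add_distrib]
      congr 1
      simp
    obtain ⟨M', h1, h2, h3⟩ := ih M1
      (by
        intro a
        rw [hrow]
        by_cases h : a = v
        · subst h; rw [if_pos rfl]; omega
        · rw [if_neg h]; exact hr a)
      (by
        intro b
        rw [hcol]
        by_cases h : b = w
        · subst h; rw [if_pos rfl]; omega
        · rw [if_neg h]; exact hc b)
      (by
        have : ∑ a, ∑ b, M1 a b = ∑ a, ∑ b, M a b + 1 := by
          simp_rw [hrow]
          rw [Finset.sum_add_distrib]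
          simp
        rw [this]; omega)
    exact ⟨M', fun a b => le_trans (Nat.le_add_right _ _) (h1 a b), h2, h3⟩

/-- König's edge colouring theorem for bipartite graphs. -/
theorem K1 {V : Type} [Fintype V] [DecidableEq V] (E : Finset (V × V)) (D : ℕ)
    (hl : ∀ u, (E.filter (fun e => e.1 = u)).card ≤ D)
    (hr : ∀ u, (E.filter (fun e => e.2 = u)).card ≤ D) :
    ∃ c : V × V → ℕ, (∀ e ∈ E, c e < D) ∧
      ∀ e ∈ E, ∀ e' ∈ E, e ≠ e' → (e.1 = e'.1 ∨ e.2 = e'.2) → c e ≠ c e' := by
  classical
  set M0 : V → V → ℕ := fun v w => if (v, w) ∈ E then 1 else 0 with hM0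
  have hrow : ∀ v, ∑ w, M0 v w ≤ D := by
    intro v
    refine le_trans (le_of_eq ?_) (hl v)
    rw [hM0]
    simp only
    rw [← Finset.card_filter]
    refine Finset.card_bij (fun w _ => (v, w)) ?_ ?_ ?_
    · intro w hw
      simp only [mem_filter, mem_univ, true_and] at hw ⊢
      exact ⟨hw, trivial⟩
    · intro a _ b _ h
      exact (Prod.mk.inj h).2
    · rintro ⟨a, b⟩ h
      simp only [mem_filter] at h
      obtain ⟨h1, h2⟩ := h
      subst h2
      exact ⟨b, by simpa using h1, rfl⟩
  have hcol : ∀ w, ∑ v, M0 v w ≤ D := by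
    intro w
    refine le_trans (le_of_eq ?_) (hr w)
    rw [hM0]
    simp only
    rw [← Finset.card_filter]
    refine Finset.card_bij (fun v _ => (v, w)) ?_ ?_ ?_
    · intro v hv
      simp only [mem_filter, mem_univ, true_and] at hv ⊢
      exact ⟨hv, trivial⟩
    · intro a _ b _ h
      exact (Prod.mk.inj h).1
    · rintro ⟨a, b⟩ h
      simp only [mem_filter] at h
      obtain ⟨h1, h2⟩ := h
      subst h2
      exact ⟨a, by simpa using h1, rfl⟩
  have htot : ∑ v, ∑ w, M0 v w ≤ D * Fintype.card V := by
    calc ∑ v, ∑ w, M0 v w ≤ ∑ _v : V, D := Finset.sum_le_sum fun v _ => hrow v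
      _ = D * Fintype.card V := by simp [mul_comm]
  obtain ⟨M', h1, h2, h3⟩ := k1_fill D (D * Fintype.card V - ∑ v, ∑ w, M0 v w) M0 hrow hcol
    (by omega)
  obtain ⟨σ, hσ⟩ := Pool.Agent.H150R2.ZSF.koenig D M' h2 h3
  have hex : ∀ e ∈ E, ∃ i : Fin D, σ i e.1 = e.2 := by
    intro e he
    have h4 : 1 ≤ M' e.1 e.2 := by
      refine le_trans (le_of_eq ?_) (h1 e.1 e.2)
      rw [hM0]
      simp only
      rw [if_pos (by exact he)]
    rw [hσ] at h4
    by_contra hcon
    push Not at hcon
    simp [hcon] at h4
  refine ⟨fun e => if h : ∃ i : Fin D, σ i e.1 = e.2 then (Classical.choose h).val else 0,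
    ?_, ?_⟩
  · intro e he
    simp only
    rw [dif_pos (hex e he)]
    exact (Classical.choose (hex e he)).isLt
  · intro e he e' he' hne hsh heq
    simp only at heq
    rw [dif_pos (hex e he), dif_pos (hex e' he')] at heq
    have hi := Classical.choose_spec (hex e he)
    have hi' := Classical.choose_spec (hex e' he')
    have hij : Classical.choose (hex e he) = Classical.choose (hex e' he') := Fin.ext heq
    rw [← hij] at hi'
    clear hij heq
    generalize Classical.choose (hex e he) = i at hi hi'
    apply hne
    rcases hsh with h | h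
    · exact Prod.ext h (by rw [← hi, ← hi', h])
    · refine Prod.ext ?_ h
      apply (σ i).injective
      rw [hi, hi', h]

end Konig

section Galvin

variable {α V C : Type} [DecidableEq α] [DecidableEq V] [DecidableEq C]

/-- Kernels (stable matchings) in a bipartite graph; at the first end the larger value of `p` is
preferred, at the second end the smaller value of `q`. -/
theorem kernel (o i : α → V) (p q : α → ℕ)
    (hop : ∀ e f, o e = o f → p e = p f → e = f) (hip : ∀ e f, i e = i f → q e = q f → e = f) :
    ∀ (m : ℕ) (F : Finset α), F.card = m → ∃ K ⊆ F,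
      (∀ e ∈ K, ∀ f ∈ K, e ≠ f → o e ≠ o f ∧ i e ≠ i f) ∧
      ∀ e ∈ F, e ∉ K → (∃ f ∈ K, o f = o e ∧ p e < p f) ∨ (∃ f ∈ K, i f = i e ∧ q f < q e) := by
  intro m
  induction m with
  | zero =>
    intro F hF
    rw [Finset.card_eq_zero] at hF
    subst hF
    exact ⟨∅, Finset.Subset.refl _, by simp, by simp⟩
  | succ m ih =>
    intro F hF
    classical
    set M : Finset α := F.filter (fun e => ∀ f ∈ F, o f = o e → p f ≤ p e) with hM
    have hMo : ∀ e ∈ M, ∀ f ∈ M, e ≠ f → o e ≠ o f := by
      intro e he f hf hne heq
      rw [hM, Finset.mem_filter] at he hf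
      exact hne (hop e f heq (le_antisymm (hf.2 e he.1 heq) (he.2 f hf.1 heq.symm)))
    by_cases h : ∀ e ∈ M, ∀ f ∈ M, e ≠ f → i e ≠ i f
    · refine ⟨M, Finset.filter_subset _ _,
        fun e he f hf hne => ⟨hMo e he f hf hne, h e he f hf hne⟩, ?_⟩
      intro e he heM
      left
      obtain ⟨g, hg, hmax⟩ := Finset.exists_max_image (F.filter (fun f => o f = o e)) p
        ⟨e, Finset.mem_filter.2 ⟨he, rfl⟩⟩
      rw [Finset.mem_filter] at hg
      refine ⟨g, ?_, hg.2, ?_⟩
      · rw [hM, Finset.mem_filter]
        refine ⟨hg.1, fun f hf hfo => hmax f (Finset.mem_filter.2 ⟨hf, hfo.trans hg.2⟩)⟩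
      · by_contra hcon
        push Not at hcon
        apply heM
        rw [hM, Finset.mem_filter]
        refine ⟨he, fun f hf hfo => le_trans (hmax f (Finset.mem_filter.2 ⟨hf, hfo⟩)) hcon⟩
    · push Not at h
      -- two maximal edges with the same second end
      have key : ∃ e ∈ M, ∃ f ∈ M, i e = i f ∧ q e < q f := by
        obtain ⟨e, he, f, hf, hne, hi⟩ := h
        rcases lt_trichotomy (q e) (q f) with h1 | h1 | h1
        · exact ⟨e, he, f, hf, hi, h1⟩
        · exact absurd (hip e f hi h1) hne
        · exact ⟨f, hf, e, he, hi.symm, h1⟩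
      obtain ⟨e, he, f, hf, hi, hlt⟩ := key
      have heF : e ∈ F := (Finset.mem_filter.1 he).1
      have hfF : f ∈ F := (Finset.mem_filter.1 hf).1
      have hemax := (Finset.mem_filter.1 he).2
      have hef : e ≠ f := by
        intro hh
        subst hh
        exact lt_irrefl _ hlt
      obtain ⟨K, hKF, hK1, hK2⟩ := ih (F.erase f) (by rw [Finset.card_erase_of_mem hfF, hF]; rfl)
      refine ⟨K, hKF.trans (Finset.erase_subset _ _), hK1, ?_⟩
      intro g hg hgK
      by_cases hgf : g = f
      · subst hgf
        right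
        by_cases heK : e ∈ K
        · exact ⟨e, heK, hi, hlt⟩
        · rcases hK2 e (Finset.mem_erase.2 ⟨hef, heF⟩) heK with ⟨k, hk, hk1, hk2⟩ | ⟨k, hk, hk1, hk2⟩
          · exact absurd (hemax k (Finset.mem_of_mem_erase (hKF hk)) hk1) (not_le.2 hk2)
          · exact ⟨k, hk, hk1.trans hi, hk2.trans hlt⟩
      · exact hK2 g (Finset.mem_erase.2 ⟨hgf, hg⟩) hgK

/-- Galvin's argument. -/
theorem galvin [Inhabited C] (o i : α → V) (p q : α → ℕ)
    (hop : ∀ e f, o e = o f → p e = p f → e = f) (hip : ∀ e f, i e = i f → q e = q f → e = f) :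
    ∀ (m : ℕ) (F : Finset α) (L : α → Finset C), F.card = m →
      (∀ e ∈ F, (F.filter (fun f => o f = o e ∧ p e < p f)).card +
        (F.filter (fun f => i f = i e ∧ q f < q e)).card < (L e).card) →
      ∃ φ : α → C, ∀ e ∈ F, φ e ∈ L e ∧
        ∀ f ∈ F, f ≠ e → φ f = φ e → o f ≠ o e ∧ i f ≠ i e := by
  intro m
  induction m using Nat.strong_induction_on with
  | _ m ih =>
    intro F L hF hL
    rcases F.eq_empty_or_nonempty with rfl | ⟨e0, he0⟩
    · exact ⟨fun _ => default, by simp⟩
    · have hne : (L e0).Nonempty := by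
        rw [← Finset.card_pos]
        exact lt_of_le_of_lt (Nat.zero_le _) (hL e0 he0)
      obtain ⟨c, hc⟩ := hne
      set Fc : Finset α := F.filter (fun e => c ∈ L e) with hFc
      obtain ⟨K, hKF, hK1, hK2⟩ := kernel o i p q hop hip Fc.card Fc rfl
      have hKF' : K ⊆ F := hKF.trans (Finset.filter_subset _ _)
      have hKne : K.Nonempty := by
        by_contra hcon
        rw [Finset.not_nonempty_iff_eq_empty] at hcon
        subst hcon
        rcases hK2 e0 (Finset.mem_filter.2 ⟨he0, hc⟩) (by simp) with ⟨f, hf, _⟩ | ⟨f, hf, _⟩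
        · simp at hf
        · simp at hf
      have hlt : (F \ K).card < m := by
        rw [← hF]
        apply Finset.card_lt_card
        refine ⟨Finset.sdiff_subset, fun hsub => ?_⟩
        obtain ⟨x, hx⟩ := hKne
        exact (Finset.mem_sdiff.1 (hsub (hKF' hx))).2 hx
      obtain ⟨φ, hφ⟩ := ih (F \ K).card hlt (F \ K) (fun e => (L e).erase c) rfl (by
        intro e he
        rw [Finset.mem_sdiff] at he
        have h1 : (((F \ K).filter (fun f => o f = o e ∧ p e < p f))) ⊆
            (F.filter (fun f => o f = o e ∧ p e < p f)) :=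
          Finset.filter_subset_filter _ Finset.sdiff_subset
        have h2 : (((F \ K).filter (fun f => i f = i e ∧ q f < q e))) ⊆
            (F.filter (fun f => i f = i e ∧ q f < q e)) :=
          Finset.filter_subset_filter _ Finset.sdiff_subset
        have hb := hL e he.1
        by_cases hce : c ∈ L e
        · rw [Finset.card_erase_of_mem hce]
          rcases hK2 e (Finset.mem_filter.2 ⟨he.1, hce⟩) he.2 with ⟨f, hf, hf1, hf2⟩ | ⟨f, hf, hf1, hf2⟩
          · have h3 : (((F \ K).filter (fun f => o f = o e ∧ p e < p f))).card <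
                (F.filter (fun f => o f = o e ∧ p e < p f)).card := by
              apply Finset.card_lt_card
              refine ⟨h1, fun hsub => ?_⟩
              have := hsub (Finset.mem_filter.2 ⟨hKF' hf, hf1, hf2⟩)
              rw [Finset.mem_filter, Finset.mem_sdiff] at this
              exact this.1.2 hf
            have := Finset.card_le_card h2
            omega
          · have h3 : (((F \ K).filter (fun f => i f = i e ∧ q f < q e))).card <
                (F.filter (fun f => i f = i e ∧ q f < q e)).card := by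
              apply Finset.card_lt_card
              refine ⟨h2, fun hsub => ?_⟩
              have := hsub (Finset.mem_filter.2 ⟨hKF' hf, hf1, hf2⟩)
              rw [Finset.mem_filter, Finset.mem_sdiff] at this
              exact this.1.2 hf
            have := Finset.card_le_card h1
            omega
        · rw [Finset.erase_eq_of_notMem hce]
          have := Finset.card_le_card h1
          have := Finset.card_le_card h2
          omega)
      refine ⟨fun e => if e ∈ K then c else φ e, fun e he => ?_⟩
      by_cases heK : e ∈ K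
      · refine ⟨by simpa [heK] using (Finset.mem_filter.1 (hKF heK)).2, fun f hf hfe hcol => ?_⟩
        by_cases hfK : f ∈ K
        · exact hK1 f hfK e heK hfe
        · exfalso
          simp only [heK, hfK, if_true, if_false] at hcol
          have := (hφ f (Finset.mem_sdiff.2 ⟨hf, hfK⟩)).1
          rw [hcol] at this
          simp at this
      · have h0 := hφ e (Finset.mem_sdiff.2 ⟨he, heK⟩)
        refine ⟨by simpa [heK] using (Finset.mem_of_mem_erase h0.1), fun f hf hfe hcol => ?_⟩
        by_cases hfK : f ∈ K
        · exfalso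
          simp only [heK, hfK, if_true, if_false] at hcol
          have := h0.1
          rw [← hcol] at this
          simp at this
        · simp only [heK, hfK, if_false] at hcol
          exact h0.2 f (Finset.mem_sdiff.2 ⟨hf, hfK⟩) hfe hcol

end Galvin

end Pool.Agent.TH559.LE
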