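import Mathlib
import Pool.Agent.TH559.LE.Bip

set_option autoImplicit false

/-!
# The theorem of Borodin, Kostochka and Woodall for simple bipartite graphs

A bipartite graph can be coloured from lists such that the list of the edge `xy` has at least
`max (deg x) (deg y)` members.
-/

namespace Pool.Agent.TH559.LE

open Finset

open Classical in
/-- A matching covering `B` and `A`: Hall's theorem twice and the argument of Schröder and
Bernstein. -/
theorem half {V : Type} [Fintype V] (R : V → V → Prop) (D : ℕ) (hD : 1 ≤ D) (A B : Finset V)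
    (h1 : ∀ y ∈ B, D ≤ (univ.filter (fun x => R x y)).card)
    (h2 : ∀ x, (univ.filter (fun y => R x y)).card ≤ D)
    (h3 : ∀ S ⊆ A, S.card ≤ (B.filter (fun y => ∃ x ∈ S, R x y)).card) :
    ∃ m : V → V, (∀ y ∈ B, ∀ y' ∈ B, m y = m y' → y = y') ∧ (∀ y ∈ B, R (m y) y) ∧
      ∀ x ∈ A, ∃ y ∈ B, m y = x := by
  -- the injection of `A` into `B`
  have hA : ∃ f : {x // x ∈ A} → V, Function.Injective f ∧
      ∀ x, f x ∈ B.filter (fun y => R x.1 y) := by
    apply (Finset.all_card_le_biUnion_card_iff_exists_injective _).1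
    intro S
    have h := h3 (S.map (Function.Embedding.subtype _)) (by
      intro x hx
      rw [Finset.mem_map] at hx
      obtain ⟨a, _, rfl⟩ := hx
      exact a.2)
    rw [Finset.card_map] at h
    refine le_trans h (Finset.card_le_card ?_)
    intro y hy
    rw [Finset.mem_filter] at hy
    obtain ⟨hyB, x, hx, hxy⟩ := hy
    rw [Finset.mem_map] at hx
    obtain ⟨a, ha, rfl⟩ := hx
    rw [Finset.mem_biUnion]
    exact ⟨a, ha, Finset.mem_filter.2 ⟨hyB, hxy⟩⟩
  -- the injection of `B` into `V`
  have hB : ∃ g : {y // y ∈ B} → V, Function.Injective g ∧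
      ∀ y, g y ∈ univ.filter (fun x => R x y.1) := by
    apply (Finset.all_card_le_biUnion_card_iff_exists_injective _).1
    intro S
    set N := S.biUnion (fun y : {y // y ∈ B} => univ.filter (fun x => R x y.1)) with hN
    have e1 : S.card * D ≤ ∑ y ∈ S, (univ.filter (fun x => R x y.1)).card := by
      rw [← smul_eq_mul, ← Finset.sum_const]
      exact Finset.sum_le_sum fun y _ => h1 y.1 y.2
    have e2 : ∑ y ∈ S, (univ.filter (fun x => R x y.1)).card ≤ ∑ x ∈ N,
        (univ.filter (fun y => R x y)).card := by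
      have e3 : ∀ y ∈ S, (univ.filter (fun x => R x y.1)).card =
          (N.filter (fun x => R x y.1)).card := by
        intro y hy
        congr 1
        ext x
        simp only [Finset.mem_filter, Finset.mem_univ, true_and, hN, Finset.mem_biUnion]
        exact ⟨fun h => ⟨⟨y, hy, h⟩, h⟩, fun h => h.2⟩
      rw [Finset.sum_congr rfl e3]
      simp_rw [Finset.card_filter]
      rw [Finset.sum_comm]
      apply Finset.sum_le_sum
      intro x _
      rw [← Finset.card_filter, ← Finset.card_filter]
      apply Finset.card_le_card_of_injOn (fun y => y.1)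
      · intro y hy
        have hy' := Finset.mem_filter.1 (Finset.mem_coe.1 hy)
        exact Finset.mem_coe.2 (Finset.mem_filter.2 ⟨Finset.mem_univ _, hy'.2⟩)
      · intro a _ b _ hab
        exact Subtype.ext hab
    have e4 : ∑ x ∈ N, (univ.filter (fun y => R x y)).card ≤ N.card * D := by
      rw [← smul_eq_mul, ← Finset.sum_const]
      exact Finset.sum_le_sum fun x _ => h2 x
    exact Nat.le_of_mul_le_mul_right (e1.trans (e2.trans e4)) hD
  obtain ⟨f, hf, hfR⟩ := hA
  obtain ⟨g, hg, hgR⟩ := hB
  have hfB : ∀ x, f x ∈ B := fun x => (Finset.mem_filter.1 (hfR x)).1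
  have hfr : ∀ x, R x.1 (f x) := fun x => (Finset.mem_filter.1 (hfR x)).2
  have hgr : ∀ y, R (g y) y.1 := fun y => (Finset.mem_filter.1 (hgR y)).2
  -- the chains starting outside the range of `g`
  let S : Set V := {x | ∀ T : Set V, (∀ a : {x // x ∈ A}, (∀ y, g y ≠ a.1) → a.1 ∈ T) →
    (∀ a : {x // x ∈ A}, a.1 ∈ T → g ⟨f a, hfB a⟩ ∈ A → g ⟨f a, hfB a⟩ ∈ T) → x ∈ T}
  have hS1 : ∀ a : {x // x ∈ A}, (∀ y, g y ≠ a.1) → a.1 ∈ S := fun a ha T hT1 _ => hT1 a ha
  have hS2 : ∀ a : {x // x ∈ A}, a.1 ∈ S → g ⟨f a, hfB a⟩ ∈ A → g ⟨f a, hfB a⟩ ∈ S :=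
    fun a ha h T hT1 hT2 => hT2 a (ha T hT1 hT2) h
  have hS3 : ∀ x ∈ S, ∃ hx : x ∈ A, (∀ y, g y ≠ x) ∨
      ∃ a : {x // x ∈ A}, a.1 ∈ S ∧ g ⟨f a, hfB a⟩ = x := by
    intro x hx
    have := hx {x | x ∈ S ∧ ∃ hx : x ∈ A, (∀ y, g y ≠ x) ∨
      ∃ a : {x // x ∈ A}, a.1 ∈ S ∧ g ⟨f a, hfB a⟩ = x}
      (fun a ha => ⟨hS1 a ha, a.2, Or.inl ha⟩)
      (fun a ha h => ⟨hS2 a ha.1 h, h, Or.inr ⟨a, ha.1, rfl⟩⟩)
    exact this.2
  let m : V → V := fun y => if h : ∃ a : {x // x ∈ A}, a.1 ∈ S ∧ f a = y then (Classical.choose h).1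
    else if h : y ∈ B then g ⟨y, h⟩ else y
  have hm1 : ∀ a : {x // x ∈ A}, a.1 ∈ S → m (f a) = a.1 := by
    intro a ha
    have hex : ∃ a' : {x // x ∈ A}, a'.1 ∈ S ∧ f a' = f a := ⟨a, ha, rfl⟩
    have : m (f a) = (Classical.choose hex).1 := by simp only [m]; rw [dif_pos hex]
    rw [this]
    exact congrArg Subtype.val (hf (Classical.choose_spec hex).2)
  have hm2 : ∀ y (hy : y ∈ B), (¬ ∃ a : {x // x ∈ A}, a.1 ∈ S ∧ f a = y) → m y = g ⟨y, hy⟩ := by
    intro y hy h
    simp only [m]
    rw [dif_neg h, dif_pos hy]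
  refine ⟨m, ?_, ?_, ?_⟩
  · -- a mixed coincidence is impossible
    have key : ∀ a : {x // x ∈ A}, a.1 ∈ S → ∀ y (hy : y ∈ B),
        (¬ ∃ a : {x // x ∈ A}, a.1 ∈ S ∧ f a = y) → a.1 ≠ g ⟨y, hy⟩ := by
      intro a ha y hy hno heq
      obtain ⟨_, h | ⟨b, hb, hbg⟩⟩ := hS3 a.1 ha
      · exact h ⟨y, hy⟩ heq.symm
      · have := hg (hbg.trans heq)
        exact hno ⟨b, hb, congrArg Subtype.val this⟩
    intro y hy y' hy' heq
    by_cases hc : ∃ a : {x // x ∈ A}, a.1 ∈ S ∧ f a = y
    · obtain ⟨a, ha, rfl⟩ := hc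
      by_cases hc' : ∃ a : {x // x ∈ A}, a.1 ∈ S ∧ f a = y'
      · obtain ⟨a', ha', rfl⟩ := hc'
        rw [hm1 a ha, hm1 a' ha'] at heq
        rw [Subtype.ext heq]
      · rw [hm1 a ha, hm2 y' hy' hc'] at heq
        exact absurd heq (key a ha y' hy' hc')
    · by_cases hc' : ∃ a : {x // x ∈ A}, a.1 ∈ S ∧ f a = y'
      · obtain ⟨a', ha', rfl⟩ := hc'
        rw [hm1 a' ha', hm2 y hy hc] at heq
        exact absurd heq.symm (key a' ha' y hy hc)
      · rw [hm2 y hy hc, hm2 y' hy' hc'] at heq
        exact congrArg Subtype.val (hg heq)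
  · intro y hy
    by_cases hc : ∃ a : {x // x ∈ A}, a.1 ∈ S ∧ f a = y
    · obtain ⟨a, ha, rfl⟩ := hc
      rw [hm1 a ha]
      exact hfr a
    · rw [hm2 y hy hc]
      exact hgr _
  · intro x hx
    by_cases hxS : x ∈ S
    · exact ⟨f ⟨x, hx⟩, hfB _, hm1 ⟨x, hx⟩ hxS⟩
    · by_cases hr : ∀ y, g y ≠ x
      · exact absurd (hS1 ⟨x, hx⟩ hr) hxS
      · push Not at hr
        obtain ⟨y, hy⟩ := hr
        refine ⟨y.1, y.2, ?_⟩
        rw [hm2 y.1 y.2 ?_]
        · exact hy
        · rintro ⟨a, ha, hay⟩
          apply hxS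
          have e : g ⟨f a, hfB a⟩ = x := by
            rw [← hy]
            congr 1
            exact Subtype.ext hay
          rw [← e]
          exact hS2 a ha (by rw [e]; exact hx)

open Classical in
/-- The matching which is removed in the induction step. -/
theorem cover {V : Type} [Fintype V] (E : Finset (V × V)) (D : ℕ) (hD : 1 ≤ D)
    (hl : ∀ u, (E.filter (fun e => e.1 = u)).card ≤ D)
    (hr : ∀ u, (E.filter (fun e => e.2 = u)).card ≤ D) :
    ∃ (M : Finset (V × V)) (Sx Sy : Finset V), M ⊆ E ∧
      (∀ e ∈ M, ∀ f ∈ M, e.1 = f.1 ∨ e.2 = f.2 → e = f) ∧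
      (∀ u, (E.filter (fun e => e.1 = u)).card = D → ∃ e ∈ M, e.1 = u) ∧
      (∀ u, (E.filter (fun e => e.2 = u)).card = D → ∃ e ∈ M, e.2 = u) ∧
      (∀ u ∈ Sx, (E.filter (fun e => e.1 = u)).card = D) ∧
      (∀ u ∈ Sy, (E.filter (fun e => e.2 = u)).card = D) ∧
      (∀ e ∈ E, ¬ (e.1 ∈ Sx ∧ e.2 ∈ Sy)) ∧ (∀ e ∈ M, e.1 ∈ Sx ∨ e.2 ∈ Sy) := by
  set X : Finset V := univ.filter (fun u => (E.filter (fun e => e.1 = u)).card = D) with hX
  set Y : Finset V := univ.filter (fun u => (E.filter (fun e => e.2 = u)).card = D) with hY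
  -- a minimum vertex cover
  obtain ⟨T, hT, hmin⟩ := Finset.exists_min_image
    ((X.powerset ×ˢ Y.powerset).filter (fun T : Finset V × Finset V =>
      ∀ e ∈ E, e.1 ∈ X → e.2 ∈ Y → e.1 ∈ T.1 ∨ e.2 ∈ T.2)) (fun T => T.1.card + T.2.card)
    ⟨(X, Y), by simp only [mem_filter, mem_product, mem_powerset]; tauto⟩
  obtain ⟨Tx, Ty⟩ := T
  simp only [mem_filter, mem_product, mem_powerset] at hT hmin
  obtain ⟨⟨hTx, hTy⟩, hcov⟩ := hT
  have hdl : ∀ u, (univ.filter (fun y => (u, y) ∈ E)).card = (E.filter (fun e => e.1 = u)).card := by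
    intro u
    refine Finset.card_bij (fun w _ => (u, w)) ?_ ?_ ?_
    · intro w hw
      simp only [mem_filter, mem_univ, true_and] at hw ⊢
      exact ⟨hw, trivial⟩
    · intro a _ b _ h
      exact (Prod.mk.inj h).2
    · rintro ⟨a, b⟩ h
      simp only [mem_filter] at h
      obtain ⟨h1, h2⟩ := h
      subst h2
      exact ⟨b, by simpa using h1, rfl⟩
  have hdr : ∀ u, (univ.filter (fun x => (x, u) ∈ E)).card = (E.filter (fun e => e.2 = u)).card := by
    intro u
    refine Finset.card_bij (fun v _ => (v, u)) ?_ ?_ ?_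
    · intro v hv
      simp only [mem_filter, mem_univ, true_and] at hv ⊢
      exact ⟨hv, trivial⟩
    · intro a _ b _ h
      exact (Prod.mk.inj h).1
    · rintro ⟨a, b⟩ h
      simp only [mem_filter] at h
      obtain ⟨h1, h2⟩ := h
      subst h2
      exact ⟨a, by simpa using h1, rfl⟩
  have hXd : ∀ u ∈ X, (E.filter (fun e => e.1 = u)).card = D := fun u hu => by
    simpa [hX] using hu
  have hYd : ∀ u ∈ Y, (E.filter (fun e => e.2 = u)).card = D := fun u hu => by
    simpa [hY] using hu
  have hb : ∀ e ∈ E, ¬ (e.1 ∈ X \ Tx ∧ e.2 ∈ Y \ Ty) := by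
    rintro e he ⟨h1, h2⟩
    rw [Finset.mem_sdiff] at h1 h2
    rcases hcov e he h1.1 h2.1 with h | h
    · exact h1.2 h
    · exact h2.2 h
  -- first half
  obtain ⟨m, hm1, hm2, hm3⟩ := half (fun x y => (x, y) ∈ E) D hD Tx (Y \ Ty)
    (by
      intro y hy
      have h := hdr y
      rw [hYd y (Finset.mem_sdiff.1 hy).1] at h
      refine le_of_eq ?_
      convert h.symm)
    (by
      intro x
      have h := hl x
      rw [← hdl] at h
      convert h)
    (by
      intro S hS
      by_contra hcon
      push Not at hcon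
      set N := (Y \ Ty).filter (fun y => ∃ x ∈ S, (x, y) ∈ E) with hN
      have hcon' : N.card < S.card := by
        refine lt_of_eq_of_lt ?_ hcon
        rw [hN]
        congr
      have h := hmin (Tx \ S, Ty ∪ N) ?_
      · simp only at h
        have h4 := Finset.card_sdiff_add_card_eq_card hS
        have h5 := Finset.card_union_le Ty N
        omega
      · refine ⟨⟨Finset.sdiff_subset.trans hTx, Finset.union_subset hTy
          ((Finset.filter_subset _ _).trans Finset.sdiff_subset)⟩, ?_⟩
        intro e he h1 h2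
        rcases hcov e he h1 h2 with h | h
        · by_cases hs : e.1 ∈ S
          · right
            by_cases ht : e.2 ∈ Ty
            · exact Finset.mem_union_left _ ht
            · apply Finset.mem_union_right
              rw [hN, Finset.mem_filter, Finset.mem_sdiff]
              exact ⟨⟨h2, ht⟩, e.1, hs, he⟩
          · exact Or.inl (Finset.mem_sdiff.2 ⟨h, hs⟩)
        · exact Or.inr (Finset.mem_union_left _ h))
  -- second half
  obtain ⟨k, hk1, hk2, hk3⟩ := half (fun y x => (x, y) ∈ E) D hD Ty (X \ Tx)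
    (by
      intro x hx
      have h := hdl x
      rw [hXd x (Finset.mem_sdiff.1 hx).1] at h
      refine le_of_eq ?_
      convert h.symm)
    (by
      intro y
      have h := hr y
      rw [← hdr] at h
      convert h)
    (by
      intro S hS
      by_contra hcon
      push Not at hcon
      set N := (X \ Tx).filter (fun x => ∃ y ∈ S, (x, y) ∈ E) with hN
      have hcon' : N.card < S.card := by
        refine lt_of_eq_of_lt ?_ hcon
        rw [hN]
        congr
      have h := hmin (Tx ∪ N, Ty \ S) ?_
      · simp only at h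
        have h4 := Finset.card_sdiff_add_card_eq_card hS
        have h5 := Finset.card_union_le Tx N
        omega
      · refine ⟨⟨Finset.union_subset hTx
          ((Finset.filter_subset _ _).trans Finset.sdiff_subset), Finset.sdiff_subset.trans hTy⟩, ?_⟩
        intro e he h1 h2
        rcases hcov e he h1 h2 with h | h
        · exact Or.inl (Finset.mem_union_left _ h)
        · by_cases hs : e.2 ∈ S
          · left
            by_cases ht : e.1 ∈ Tx
            · exact Finset.mem_union_left _ ht
            · apply Finset.mem_union_right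
              rw [hN, Finset.mem_filter, Finset.mem_sdiff]
              exact ⟨⟨h1, ht⟩, e.2, hs, he⟩
          · exact Or.inr (Finset.mem_sdiff.2 ⟨h, hs⟩))
  refine ⟨(Y \ Ty).image (fun y => (m y, y)) ∪ (X \ Tx).image (fun x => (x, k x)),
    X \ Tx, Y \ Ty, ?_, ?_, ?_, ?_, ?_, ?_, hb, ?_⟩
  · intro e he
    rw [Finset.mem_union, Finset.mem_image, Finset.mem_image] at he
    rcases he with ⟨y, hy, rfl⟩ | ⟨x, hx, rfl⟩
    · exact hm2 y hy
    · exact hk2 x hx
  · intro e he f hf h
    rw [Finset.mem_union, Finset.mem_image, Finset.mem_image] at he hf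
    rcases he with ⟨y, hy, rfl⟩ | ⟨x, hx, rfl⟩
    · rcases hf with ⟨y', hy', rfl⟩ | ⟨x', hx', rfl⟩
      · rcases h with h | h
        · have := hm1 y hy y' hy' h
          rw [this]
        · simp only at h
          rw [h]
      · exfalso
        rcases h with h | h
        · exact hb (m y, y) (hm2 y hy) ⟨by simp only at h; rw [h]; exact hx', hy⟩
        · exact hb (x', k x') (hk2 x' hx') ⟨hx', by simp only at h; rw [← h]; exact hy⟩
    · rcases hf with ⟨y', hy', rfl⟩ | ⟨x', hx', rfl⟩
      · exfalso
        rcases h with h | h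
        · exact hb (m y', y') (hm2 y' hy') ⟨by simp only at h; rw [← h]; exact hx, hy'⟩
        · exact hb (x, k x) (hk2 x hx) ⟨hx, by simp only at h; rw [h]; exact hy'⟩
      · rcases h with h | h
        · simp only at h
          rw [h]
        · have := hk1 x hx x' hx' h
          rw [this]
  · intro u hu
    have huX : u ∈ X := by simpa [hX] using hu
    by_cases ht : u ∈ Tx
    · obtain ⟨y, hy, hmy⟩ := hm3 u ht
      exact ⟨(m y, y), Finset.mem_union_left _ (Finset.mem_image.2 ⟨y, hy, rfl⟩), hmy⟩
    · exact ⟨(u, k u), Finset.mem_union_right _ (Finset.mem_image.2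
        ⟨u, Finset.mem_sdiff.2 ⟨huX, ht⟩, rfl⟩), rfl⟩
  · intro u hu
    have huY : u ∈ Y := by simpa [hY] using hu
    by_cases ht : u ∈ Ty
    · obtain ⟨x, hx, hkx⟩ := hk3 u ht
      exact ⟨(x, k x), Finset.mem_union_right _ (Finset.mem_image.2 ⟨x, hx, rfl⟩), hkx⟩
    · exact ⟨(m u, u), Finset.mem_union_left _ (Finset.mem_image.2
        ⟨u, Finset.mem_sdiff.2 ⟨huY, ht⟩, rfl⟩), rfl⟩
  · intro u hu
    exact hXd u (Finset.mem_sdiff.1 hu).1
  · intro u hu
    exact hYd u (Finset.mem_sdiff.1 hu).1
  · intro e he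
    rw [Finset.mem_union, Finset.mem_image, Finset.mem_image] at he
    rcases he with ⟨y, hy, rfl⟩ | ⟨x, hx, rfl⟩
    · exact Or.inr hy
    · exact Or.inl hx

open Classical in
/-- Ranks for Galvin's argument: every edge `xy` has fewer than `max (deg x) (deg y)` successors. -/
theorem ranks {V : Type} [Fintype V] : ∀ (D : ℕ) (E : Finset (V × V)),
    (∀ u, (E.filter (fun e => e.1 = u)).card ≤ D) →
    (∀ u, (E.filter (fun e => e.2 = u)).card ≤ D) →
    ∃ c : V × V → ℕ, (∀ e ∈ E, ∀ f ∈ E, e.1 = f.1 ∨ e.2 = f.2 → c e = c f → e = f) ∧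
      ∀ e ∈ E, (E.filter (fun f => f.1 = e.1 ∧ c e < c f)).card +
        (E.filter (fun f => f.2 = e.2 ∧ c f < c e)).card <
        max (E.filter (fun f => f.1 = e.1)).card (E.filter (fun f => f.2 = e.2)).card := by
  intro D
  induction D with
  | zero =>
    intro E hl hr
    have hE : ∀ e, e ∉ E := by
      intro e he
      have h := hl e.1
      have : 0 < (E.filter (fun f => f.1 = e.1)).card :=
        Finset.card_pos.2 ⟨e, Finset.mem_filter.2 ⟨he, rfl⟩⟩
      omega
    exact ⟨fun _ => 0, fun e he => absurd he (hE e), fun e he => absurd he (hE e)⟩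
  | succ D ih =>
    intro E hl hr
    obtain ⟨M, Sx, Sy, hME, hM, hM1, hM2, hSx, hSy, hS, hMS⟩ := cover E (D + 1) (by omega) hl hr
    have hdeg1 : ∀ u, ((E \ M).filter (fun e => e.1 = u)).card ≤ D := by
      intro u
      have h1 : (E \ M).filter (fun e => e.1 = u) ⊆ E.filter (fun e => e.1 = u) :=
        Finset.filter_subset_filter _ Finset.sdiff_subset
      rcases Nat.lt_or_ge ((E.filter (fun e => e.1 = u)).card) (D + 1) with h | h
      · exact (Finset.card_le_card h1).trans (by omega)
      · obtain ⟨m, hm, hmu⟩ := hM1 u (le_antisymm (hl u) h)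
        have h2 : (E \ M).filter (fun e => e.1 = u) ⊂ E.filter (fun e => e.1 = u) := by
          refine ⟨h1, fun hsub => ?_⟩
          have := hsub (Finset.mem_filter.2 ⟨hME hm, hmu⟩)
          rw [Finset.mem_filter, Finset.mem_sdiff] at this
          exact this.1.2 hm
        have := Finset.card_lt_card h2
        have := hl u
        omega
    have hdeg2 : ∀ u, ((E \ M).filter (fun e => e.2 = u)).card ≤ D := by
      intro u
      have h1 : (E \ M).filter (fun e => e.2 = u) ⊆ E.filter (fun e => e.2 = u) :=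
        Finset.filter_subset_filter _ Finset.sdiff_subset
      rcases Nat.lt_or_ge ((E.filter (fun e => e.2 = u)).card) (D + 1) with h | h
      · exact (Finset.card_le_card h1).trans (by omega)
      · obtain ⟨m, hm, hmu⟩ := hM2 u (le_antisymm (hr u) h)
        have h2 : (E \ M).filter (fun e => e.2 = u) ⊂ E.filter (fun e => e.2 = u) := by
          refine ⟨h1, fun hsub => ?_⟩
          have := hsub (Finset.mem_filter.2 ⟨hME hm, hmu⟩)
          rw [Finset.mem_filter, Finset.mem_sdiff] at this
          exact this.1.2 hm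
        have := Finset.card_lt_card h2
        have := hr u
        omega
    obtain ⟨c', hc1, hc2⟩ := ih (E \ M) hdeg1 hdeg2
    set B := E.sup c' + 2 with hB
    have hcB : ∀ e ∈ E, c' e + 1 < B := by
      intro e he
      have := Finset.le_sup (f := c') he
      omega
    set c : V × V → ℕ := fun e => if e ∈ M then (if e.1 ∈ Sx then B else 0) else c' e + 1 with hc
    have hcM : ∀ e ∈ M, c e = if e.1 ∈ Sx then B else 0 := fun e he => by
      simp only [hc]; rw [if_pos he]
    have hcN : ∀ e, e ∉ M → c e = c' e + 1 := fun e he => by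
      simp only [hc]; rw [if_neg he]
    have hcle : ∀ e ∈ E, c e ≤ B := by
      intro e he
      by_cases hm : e ∈ M
      · rw [hcM e hm]; split_ifs <;> omega
      · rw [hcN e hm]; exact (hcB e he).le
    refine ⟨c, ?_, ?_⟩
    · intro e he f hf hef hcef
      by_cases hm : e ∈ M
      · by_cases hm' : f ∈ M
        · exact hM e hm f hm' hef
        · exfalso
          rw [hcM e hm, hcN f hm'] at hcef
          have := hcB f hf
          split_ifs at hcef <;> omega
      · by_cases hm' : f ∈ M
        · exfalso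
          rw [hcM f hm', hcN e hm] at hcef
          have := hcB e he
          split_ifs at hcef <;> omega
        · rw [hcN e hm, hcN f hm'] at hcef
          exact hc1 e (Finset.mem_sdiff.2 ⟨he, hm⟩) f (Finset.mem_sdiff.2 ⟨hf, hm'⟩) hef (by omega)
    · intro e he
      by_cases hm : e ∈ M
      · by_cases hx : e.1 ∈ Sx
        · have hce : c e = B := by rw [hcM e hm, if_pos hx]
          have h1 : E.filter (fun f => f.1 = e.1 ∧ c e < c f) = ∅ := by
            rw [Finset.filter_eq_empty_iff]
            rintro f hf ⟨_, h⟩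
            have := hcle f hf
            omega
          have h2 : (E.filter (fun f => f.2 = e.2 ∧ c f < c e)).card <
              (E.filter (fun f => f.2 = e.2)).card := by
            apply Finset.card_lt_card
            refine ⟨fun f hf => ?_, fun hsub => ?_⟩
            · rw [Finset.mem_filter] at hf ⊢
              exact ⟨hf.1, hf.2.1⟩
            · have := hsub (Finset.mem_filter.2 ⟨he, rfl⟩)
              rw [Finset.mem_filter] at this
              exact lt_irrefl _ this.2.2
          rw [h1, Finset.card_empty, zero_add]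
          exact lt_of_lt_of_le h2 (le_max_right _ _)
        · have hce : c e = 0 := by rw [hcM e hm, if_neg hx]
          have h1 : E.filter (fun f => f.2 = e.2 ∧ c f < c e) = ∅ := by
            rw [Finset.filter_eq_empty_iff]
            rintro f hf ⟨_, h⟩
            omega
          have h2 : (E.filter (fun f => f.1 = e.1 ∧ c e < c f)).card <
              (E.filter (fun f => f.1 = e.1)).card := by
            apply Finset.card_lt_card
            refine ⟨fun f hf => ?_, fun hsub => ?_⟩
            · rw [Finset.mem_filter] at hf ⊢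
              exact ⟨hf.1, hf.2.1⟩
            · have := hsub (Finset.mem_filter.2 ⟨he, rfl⟩)
              rw [Finset.mem_filter] at this
              exact lt_irrefl _ this.2.2
          rw [h1, Finset.card_empty, add_zero]
          exact lt_of_lt_of_le h2 (le_max_left _ _)
      · have heN : e ∈ E \ M := Finset.mem_sdiff.2 ⟨he, hm⟩
        have hold := hc2 e heN
        have hce : c e = c' e + 1 := hcN e hm
        -- the first end
        have a1 : (E.filter (fun f => f.1 = e.1 ∧ c e < c f)).card ≤
            ((E \ M).filter (fun f => f.1 = e.1 ∧ c' e < c' f)).card +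
              (M.filter (fun f => f.1 = e.1 ∧ f.1 ∈ Sx)).card := by
          refine (Finset.card_le_card ?_).trans (Finset.card_union_le _ _)
          intro f hf
          rw [Finset.mem_filter] at hf
          obtain ⟨hf, h1, h2⟩ := hf
          rw [Finset.mem_union]
          by_cases hfm : f ∈ M
          · right
            rw [Finset.mem_filter]
            refine ⟨hfm, h1, ?_⟩
            by_contra hcon
            rw [hcM f hfm, if_neg hcon] at h2
            omega
          · left
            rw [Finset.mem_filter]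
            rw [hce, hcN f hfm] at h2
            exact ⟨Finset.mem_sdiff.2 ⟨hf, hfm⟩, h1, by omega⟩
        have a2 : (E.filter (fun f => f.2 = e.2 ∧ c f < c e)).card ≤
            ((E \ M).filter (fun f => f.2 = e.2 ∧ c' f < c' e)).card +
              (M.filter (fun f => f.2 = e.2 ∧ f.2 ∈ Sy)).card := by
          refine (Finset.card_le_card ?_).trans (Finset.card_union_le _ _)
          intro f hf
          rw [Finset.mem_filter] at hf
          obtain ⟨hf, h1, h2⟩ := hf
          rw [Finset.mem_union]
          by_cases hfm : f ∈ M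
          · right
            rw [Finset.mem_filter]
            refine ⟨hfm, h1, ?_⟩
            rcases hMS f hfm with h | h
            · exfalso
              rw [hcM f hfm, if_pos h, hce] at h2
              have := hcB e he
              omega
            · exact h
          · left
            rw [Finset.mem_filter]
            rw [hce, hcN f hfm] at h2
            exact ⟨Finset.mem_sdiff.2 ⟨hf, hfm⟩, h1, by omega⟩
        have b1 : (M.filter (fun f => f.1 = e.1 ∧ f.1 ∈ Sx)).card ≤ if e.1 ∈ Sx then 1 else 0 := by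
          split_ifs with h
          · rw [Finset.card_le_one]
            intro a ha b hb
            rw [Finset.mem_filter] at ha hb
            exact hM a ha.1 b hb.1 (Or.inl (ha.2.1.trans hb.2.1.symm))
          · rw [Nat.le_zero, Finset.card_eq_zero, Finset.filter_eq_empty_iff]
            rintro f hf ⟨h1, h2⟩
            rw [h1] at h2
            exact h h2
        have b2 : (M.filter (fun f => f.2 = e.2 ∧ f.2 ∈ Sy)).card ≤ if e.2 ∈ Sy then 1 else 0 := by
          split_ifs with h
          · rw [Finset.card_le_one]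
            intro a ha b hb
            rw [Finset.mem_filter] at ha hb
            exact hM a ha.1 b hb.1 (Or.inr (ha.2.1.trans hb.2.1.symm))
          · rw [Nat.le_zero, Finset.card_eq_zero, Finset.filter_eq_empty_iff]
            rintro f hf ⟨h1, h2⟩
            rw [h1] at h2
            exact h h2
        have d1 := hdeg1 e.1
        have d2 := hdeg2 e.2
        have m1 : ((E \ M).filter (fun f => f.1 = e.1)).card ≤
            (E.filter (fun f => f.1 = e.1)).card :=
          Finset.card_le_card (Finset.filter_subset_filter _ Finset.sdiff_subset)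
        have m2 : ((E \ M).filter (fun f => f.2 = e.2)).card ≤
            (E.filter (fun f => f.2 = e.2)).card :=
          Finset.card_le_card (Finset.filter_subset_filter _ Finset.sdiff_subset)
        by_cases hx : e.1 ∈ Sx
        · have hy : e.2 ∉ Sy := fun hy => hS e he ⟨hx, hy⟩
          rw [if_pos hx] at b1
          rw [if_neg hy] at b2
          have := hSx e.1 hx
          omega
        · rw [if_neg hx] at b1
          by_cases hy : e.2 ∈ Sy
          · rw [if_pos hy] at b2
            have := hSy e.2 hy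
            omega
          · rw [if_neg hy] at b2
            omega

open Classical in
/-- The theorem of Borodin, Kostochka and Woodall for simple bipartite graphs. -/
theorem bkw {V : Type} [Fintype V] (E : Finset (V × V)) (L : V × V → Finset ℕ)
    (hL : ∀ e ∈ E, max (E.filter (fun f => f.1 = e.1)).card (E.filter (fun f => f.2 = e.2)).card
      ≤ (L e).card) :
    ∃ φ : V × V → ℕ, ∀ e ∈ E, φ e ∈ L e ∧
      ∀ f ∈ E, f ≠ e → (f.1 = e.1 ∨ f.2 = e.2) → φ f ≠ φ e := by
  obtain ⟨c, hc1, hc2⟩ := ranks E.card E (fun u => Finset.card_filter_le _ _)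
    (fun u => Finset.card_filter_le _ _)
  have tr : ∀ P : V × V → Prop, ((univ : Finset {e // e ∈ E}).filter (fun f => P f.1)).card =
      (E.filter P).card := by
    intro P
    refine Finset.card_bij (fun f _ => f.1) ?_ ?_ ?_
    · intro f hf
      rw [Finset.mem_filter] at hf ⊢
      exact ⟨f.2, hf.2⟩
    · intro a _ b _ h
      exact Subtype.ext h
    · intro f hf
      rw [Finset.mem_filter] at hf
      exact ⟨⟨f, hf.1⟩, Finset.mem_filter.2 ⟨Finset.mem_univ _, hf.2⟩, rfl⟩
  obtain ⟨φ, hφ⟩ := galvin (α := {e // e ∈ E}) (fun e => e.1.1) (fun e => e.1.2)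
    (fun e => c e.1) (fun e => c e.1)
    (fun e f h1 h2 => Subtype.ext (hc1 e.1 e.2 f.1 f.2 (Or.inl h1) h2))
    (fun e f h1 h2 => Subtype.ext (hc1 e.1 e.2 f.1 f.2 (Or.inr h1) h2))
    _ univ (fun e => L e.1) rfl (by
      intro e _
      refine lt_of_lt_of_le ?_ (hL e.1 e.2)
      refine lt_of_le_of_lt (le_of_eq ?_) (hc2 e.1 e.2)
      refine congrArg₂ (· + ·) ?_ ?_
      · have h := tr (fun f => f.1 = e.1.1 ∧ c e.1 < c f)
        convert h
      · have h := tr (fun f => f.2 = e.1.2 ∧ c f < c e.1)
        convert h)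
  refine ⟨fun e => if h : e ∈ E then φ ⟨e, h⟩ else 0, ?_⟩
  intro e he
  obtain ⟨h1, h2⟩ := hφ ⟨e, he⟩ (Finset.mem_univ _)
  simp only [dif_pos he]
  refine ⟨h1, fun f hf hfe hor => ?_⟩
  simp only [dif_pos hf]
  intro heq
  have := h2 ⟨f, hf⟩ (Finset.mem_univ _) (fun h => hfe (congrArg Subtype.val h)) heq
  rcases hor with h | h
  · exact this.1 h
  · exact this.2 h

end Pool.Agent.TH559.LE
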