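import Mathlib
import Pool.Agent.TH559.LE.Bkw

set_option autoImplicit false

/-!
# Reducible bipartite subgraphs for list edge colourings
-/

namespace Pool.Agent.TH559.LE

open Finset

variable {V : Type}

/-- `c` is a proper colouring of the edges of `A` from the lists `L`. -/
def Ok (A : SimpleGraph V) (L : Sym2 V → Finset ℕ) (c : Sym2 V → ℕ) : Prop :=
  (∀ u v, A.Adj u v → c s(u, v) ∈ L s(u, v)) ∧
    ∀ u v w, A.Adj u v → A.Adj u w → v ≠ w → c s(u, v) ≠ c s(u, w)

/-- The degree of a vertex. -/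
noncomputable def dg (A : SimpleGraph V) (u : V) : ℕ := (A.neighborSet u).ncard

theorem dg_eq [Fintype V] (A : SimpleGraph V) [DecidableRel A.Adj] (u : V) :
    dg A u = (univ.filter (fun v => A.Adj u v)).card := by
  rw [dg, ← Set.ncard_coe_finset]
  congr 1
  ext v
  simp

theorem dg_mono [Fintype V] {A B : SimpleGraph V} (h : A ≤ B) (u : V) : dg A u ≤ dg B u := by
  apply Set.ncard_le_ncard _ (Set.toFinite _)
  intro v hv
  exact h hv

theorem dg_lt [Fintype V] {A B : SimpleGraph V} (h : A ≤ B) {u v : V} (h1 : B.Adj u v)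
    (h2 : ¬ A.Adj u v) : dg A u < dg B u := by
  apply Set.ncard_lt_ncard _ (Set.toFinite _)
  refine ⟨fun w hw => h hw, fun hsub => h2 (hsub h1)⟩

open Classical in
/-- A colouring extends to bipartite sets of new edges. -/
theorem ext [Fintype V] (A B : SimpleGraph V) (hAB : A ≤ B) (X : V → Prop)
    (hX : ∀ u v, B.Adj u v → ¬ A.Adj u v → (X u ↔ ¬ X v)) (L : Sym2 V → Finset ℕ)
    (hL : ∀ u v, B.Adj u v → ¬ A.Adj u v → dg B u + dg A v ≤ (L s(u, v)).card)
    (c : Sym2 V → ℕ) (hc : Ok A L c) : ∃ c', Ok B L c' := by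
  set E : Finset (V × V) := univ.filter (fun e => X e.1 ∧ B.Adj e.1 e.2 ∧ ¬ A.Adj e.1 e.2) with hE
  have hEm : ∀ e, e ∈ E ↔ X e.1 ∧ B.Adj e.1 e.2 ∧ ¬ A.Adj e.1 e.2 := by
    intro e
    simp [hE]
  set I : V → Finset ℕ := fun u => (univ.filter (fun w => A.Adj u w)).image (fun w => c s(u, w))
    with hI
  have hIc : ∀ u, (I u).card ≤ dg A u := by
    intro u
    rw [dg_eq]
    exact Finset.card_image_le
  have hIm : ∀ u w, A.Adj u w → c s(u, w) ∈ I u := by
    intro u w h
    rw [hI]
    exact Finset.mem_image.2 ⟨w, by simpa using h, rfl⟩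
  set L' : V × V → Finset ℕ := fun e => L s(e.1, e.2) \ (I e.1 ∪ I e.2) with hL'
  have d1 : ∀ u, (E.filter (fun f => f.1 = u)).card + dg A u ≤ dg B u := by
    intro u
    have e1 : (E.filter (fun f => f.1 = u)).card ≤
        (univ.filter (fun w => B.Adj u w ∧ ¬ A.Adj u w)).card := by
      apply Finset.card_le_card_of_injOn (fun f => f.2)
      · intro f hf
        have hf' := Finset.mem_filter.1 (Finset.mem_coe.1 hf)
        obtain ⟨h1, h2⟩ := hf'
        rw [hEm] at h1
        rw [← h2]
        simpa using h1.2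
      · intro f hf g hg hfg
        have hf' := Finset.mem_filter.1 (Finset.mem_coe.1 hf)
        have hg' := Finset.mem_filter.1 (Finset.mem_coe.1 hg)
        exact Prod.ext (hf'.2.trans hg'.2.symm) hfg
    rw [dg_eq, dg_eq]
    have e2 : (univ.filter (fun w => B.Adj u w)) =
        (univ.filter (fun w => B.Adj u w ∧ ¬ A.Adj u w)) ∪ (univ.filter (fun w => A.Adj u w)) := by
      ext w
      simp only [mem_filter, mem_univ, true_and, mem_union]
      constructor
      · intro h
        by_cases h' : A.Adj u w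
        · exact Or.inr h'
        · exact Or.inl ⟨h, h'⟩
      · rintro (h | h)
        · exact h.1
        · exact hAB h
    rw [e2, Finset.card_union_of_disjoint]
    · omega
    · rw [Finset.disjoint_left]
      intro w h1 h2
      rw [Finset.mem_filter] at h1 h2
      exact h1.2.2 h2.2
  have d2 : ∀ u, (E.filter (fun f => f.2 = u)).card + dg A u ≤ dg B u := by
    intro u
    have e1 : (E.filter (fun f => f.2 = u)).card ≤
        (univ.filter (fun w => B.Adj u w ∧ ¬ A.Adj u w)).card := by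
      apply Finset.card_le_card_of_injOn (fun f => f.1)
      · intro f hf
        have hf' := Finset.mem_filter.1 (Finset.mem_coe.1 hf)
        obtain ⟨h1, h2⟩ := hf'
        rw [hEm] at h1
        rw [← h2]
        have := h1.2
        simpa using ⟨this.1.symm, fun h => this.2 (SimpleGraph.Adj.symm h)⟩
      · intro f hf g hg hfg
        have hf' := Finset.mem_filter.1 (Finset.mem_coe.1 hf)
        have hg' := Finset.mem_filter.1 (Finset.mem_coe.1 hg)
        exact Prod.ext hfg (hf'.2.trans hg'.2.symm)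
    rw [dg_eq, dg_eq]
    have e2 : (univ.filter (fun w => B.Adj u w)) =
        (univ.filter (fun w => B.Adj u w ∧ ¬ A.Adj u w)) ∪ (univ.filter (fun w => A.Adj u w)) := by
      ext w
      simp only [mem_filter, mem_univ, true_and, mem_union]
      constructor
      · intro h
        by_cases h' : A.Adj u w
        · exact Or.inr h'
        · exact Or.inl ⟨h, h'⟩
      · rintro (h | h)
        · exact h.1
        · exact hAB h
    rw [e2, Finset.card_union_of_disjoint]
    · omega
    · rw [Finset.disjoint_left]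
      intro w h1 h2
      rw [Finset.mem_filter] at h1 h2
      exact h1.2.2 h2.2
  obtain ⟨φ, hφ⟩ := bkw E L' (by
    intro e he
    obtain ⟨h1, h2, h3⟩ := (hEm e).1 he
    have b1 := hL e.1 e.2 h2 h3
    have b2 := hL e.2 e.1 h2.symm (fun h => h3 h.symm)
    rw [Sym2.eq_swap] at b2
    have b3 := d1 e.1
    have b4 := d2 e.2
    have b5 := hIc e.1
    have b6 := hIc e.2
    have b7 : (L s(e.1, e.2)).card ≤ (L' e).card + (I e.1 ∪ I e.2).card := by
      have := Finset.card_le_card_sdiff_add_card (t := I e.1 ∪ I e.2) (s := L s(e.1, e.2))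
      simpa [hL'] using this
    have b8 := Finset.card_union_le (I e.1) (I e.2)
    omega)
  -- the edge in `E` belonging to a pair of vertices
  set ν : V → V → V × V := fun u v => if X u then (u, v) else (v, u) with hν
  have hν1 : ∀ u v, B.Adj u v → ¬ A.Adj u v → ν u v ∈ E := by
    intro u v h1 h2
    rw [hEm]
    by_cases hu : X u
    · simp only [hν, if_pos hu]
      exact ⟨hu, h1, h2⟩
    · simp only [hν, if_neg hu]
      have := hX u v h1 h2
      refine ⟨?_, h1.symm, fun h => h2 h.symm⟩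
      by_contra hv
      exact hu (this.2 hv)
  have hν2 : ∀ u v, s((ν u v).1, (ν u v).2) = s(u, v) := by
    intro u v
    by_cases hu : X u
    · simp only [hν, if_pos hu]
    · simp only [hν, if_neg hu]
      exact Sym2.eq_swap
  have huniq : ∀ e ∈ E, ∀ f ∈ E, s(e.1, e.2) = s(f.1, f.2) → e = f := by
    intro e he f hf h
    rw [Sym2.eq_iff] at h
    rcases h with h | h
    · exact Prod.ext h.1 h.2
    · exfalso
      obtain ⟨h1, h2, h3⟩ := (hEm e).1 he
      obtain ⟨h4, h5, h6⟩ := (hEm f).1 hf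
      have := (hX e.1 e.2 h2 h3).1 h1
      rw [h.2] at this
      exact this h4
  set c' : Sym2 V → ℕ := fun z => if z ∈ A.edgeSet then c z else
    if h : ∃ e ∈ E, s(e.1, e.2) = z then φ (Classical.choose h) else 0 with hc'
  have hcA : ∀ u v, A.Adj u v → c' s(u, v) = c s(u, v) := by
    intro u v h
    simp only [hc']
    rw [if_pos ((SimpleGraph.mem_edgeSet A).2 h)]
  have hcN : ∀ u v, B.Adj u v → ¬ A.Adj u v → c' s(u, v) = φ (ν u v) := by
    intro u v h1 h2
    simp only [hc']
    have hex : ∃ e ∈ E, s(e.1, e.2) = s(u, v) := ⟨ν u v, hν1 u v h1 h2, hν2 u v⟩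
    rw [if_neg (fun h => h2 ((SimpleGraph.mem_edgeSet A).1 h)), dif_pos hex]
    congr 1
    apply huniq _ (Classical.choose_spec hex).1 _ (hν1 u v h1 h2)
    rw [(Classical.choose_spec hex).2, hν2]
  refine ⟨c', ?_, ?_⟩
  · intro u v h
    by_cases hA : A.Adj u v
    · rw [hcA u v hA]
      exact hc.1 u v hA
    · rw [hcN u v h hA]
      have := (hφ (ν u v) (hν1 u v h hA)).1
      rw [hL'] at this
      have := (Finset.mem_sdiff.1 this).1
      rwa [hν2] at this
  · have mixed : ∀ u v w, A.Adj u v → B.Adj u w → ¬ A.Adj u w → c' s(u, v) ≠ c' s(u, w) := by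
      intro u v w h1 h2 h3 heq
      rw [hcA u v h1, hcN u w h2 h3] at heq
      have := (hφ (ν u w) (hν1 u w h2 h3)).1
      rw [hL'] at this
      have := (Finset.mem_sdiff.1 this).2
      apply this
      rw [← heq, Finset.mem_union]
      by_cases hu : X u
      · left
        simp only [hν, if_pos hu]
        exact hIm u v h1
      · right
        simp only [hν, if_neg hu]
        exact hIm u v h1
    intro u v w h1 h2 hvw
    by_cases hA : A.Adj u v
    · by_cases hB : A.Adj u w
      · rw [hcA u v hA, hcA u w hB]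
        exact hc.2 u v w hA hB hvw
      · exact mixed u v w hA h2 hB
    · by_cases hB : A.Adj u w
      · exact (mixed u w v hB h1 hA).symm
      · rw [hcN u v h1 hA, hcN u w h2 hB]
        refine (hφ (ν u w) (hν1 u w h2 hB)).2 (ν u v) (hν1 u v h1 hA) ?_ ?_
        · intro h
          have e := hν2 u v
          rw [h, hν2 u w, Sym2.eq_iff] at e
          rcases e with e | e
          · exact hvw e.2.symm
          · exact hvw (e.1.symm.trans e.2.symm)
        · by_cases hu : X u
          · left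
            simp only [hν, if_pos hu]
          · right
            simp only [hν, if_neg hu]

/-- If every nonempty subgraph `H` has a nonempty bipartite subgraph `F` such that every edge `uv`
of `F` has a list of at least `d_H(u) + d_{H - F}(v)` colours, then the edges can be coloured from
the lists. Here `F` is given by the remaining graph `A = H - F`. -/
theorem red [Fintype V] (G : SimpleGraph V) (L : Sym2 V → Finset ℕ)
    (h : ∀ H : SimpleGraph V, H ≤ G → H ≠ ⊥ → ∃ A : SimpleGraph V, A < H ∧ ∃ X : V → Prop,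
      (∀ u v, H.Adj u v → ¬ A.Adj u v → (X u ↔ ¬ X v)) ∧
      ∀ u v, H.Adj u v → ¬ A.Adj u v → dg H u + dg A v ≤ (L s(u, v)).card) :
    ∃ c, Ok G L c := by
  by_contra hcon
  have hfin : {H : SimpleGraph V | H ≤ G ∧ ¬ ∃ c, Ok H L c}.Finite := Set.toFinite _
  obtain ⟨H, hH, hmin⟩ := hfin.exists_minimal ⟨G, le_rfl, hcon⟩
  have hne : H ≠ ⊥ := by
    rintro rfl
    exact hH.2 ⟨fun _ => 0, fun u v h => absurd h (by simp), fun u v w h => absurd h (by simp)⟩
  obtain ⟨A, hA, X, hX, hd⟩ := h H hH.1 hne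
  have hAok : ∃ c, Ok A L c := by
    by_contra hno
    have := hmin (y := A) ⟨hA.le.trans hH.1, hno⟩ hA.le
    exact absurd this (not_le_of_gt hA)
  obtain ⟨c, hc⟩ := hAok
  exact hH.2 (ext A H hA.le X hX L hd c hc)

open Classical in
/-- There is a set `X` such that every vertex has at least as many neighbours on the other side as
on its own side. -/
theorem cut [Fintype V] (H : SimpleGraph V) : ∃ X : V → Prop, ∀ u,
    (univ.filter (fun v => H.Adj u v ∧ (X u ↔ X v))).card ≤
      (univ.filter (fun v => H.Adj u v ∧ ¬ (X u ↔ X v))).card := by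
  -- number of ordered crossing pairs
  obtain ⟨X, -, hX⟩ := Finset.exists_max_image (univ : Finset (Finset V))
    (fun X => ∑ u, ∑ v, if H.Adj u v ∧ ¬ (u ∈ X ↔ v ∈ X) then 1 else 0) ⟨∅, mem_univ _⟩
  refine ⟨fun u => u ∈ X, fun u => ?_⟩
  by_contra hcon0
  rw [not_le] at hcon0
  have hcon : (univ.filter (fun v => H.Adj u v ∧ ¬ (u ∈ X ↔ v ∈ X))).card <
      (univ.filter (fun v => H.Adj u v ∧ (u ∈ X ↔ v ∈ X))).card := by
    refine lt_of_eq_of_lt ?_ (lt_of_lt_of_eq hcon0 ?_)
    · congr
    · congr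
  set Y : Finset V := if u ∈ X then X.erase u else insert u X with hY
  have hY1 : ∀ w, w ≠ u → (w ∈ Y ↔ w ∈ X) := by
    intro w hw
    rw [hY]
    split_ifs
    · simp [hw]
    · simp [hw]
  have hY2 : u ∈ Y ↔ u ∉ X := by
    rw [hY]
    split_ifs with h
    · simp [h]
    · simp [h]
  have split : ∀ Z : Finset V, (∑ a, ∑ v, if H.Adj a v ∧ ¬ (a ∈ Z ↔ v ∈ Z) then 1 else 0) =
      2 * (univ.filter (fun v => H.Adj u v ∧ ¬ (u ∈ Z ↔ v ∈ Z))).card +
      ∑ a ∈ univ.erase u, ∑ v ∈ univ.erase u, if H.Adj a v ∧ ¬ (a ∈ Z ↔ v ∈ Z) then 1 else 0 := by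
    intro Z
    rw [← Finset.add_sum_erase univ _ (mem_univ u)]
    have e1 : ∀ a ∈ univ.erase u, (∑ v, if H.Adj a v ∧ ¬ (a ∈ Z ↔ v ∈ Z) then 1 else 0) =
        (if H.Adj a u ∧ ¬ (a ∈ Z ↔ u ∈ Z) then 1 else 0) +
        ∑ v ∈ univ.erase u, if H.Adj a v ∧ ¬ (a ∈ Z ↔ v ∈ Z) then 1 else 0 := by
      intro a _
      rw [← Finset.add_sum_erase univ _ (mem_univ u)]
    rw [Finset.sum_congr rfl e1, Finset.sum_add_distrib]
    have e2 : (∑ a ∈ univ.erase u, if H.Adj a u ∧ ¬ (a ∈ Z ↔ u ∈ Z) then 1 else 0) =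
        ∑ a, if H.Adj u a ∧ ¬ (u ∈ Z ↔ a ∈ Z) then 1 else 0 := by
      rw [← Finset.add_sum_erase univ (fun a => if H.Adj u a ∧ ¬ (u ∈ Z ↔ a ∈ Z) then 1 else 0)
        (mem_univ u)]
      simp only [SimpleGraph.irrefl, false_and, if_false, zero_add]
      apply Finset.sum_congr rfl
      intro a _
      congr 1
      rw [SimpleGraph.adj_comm, eq_iff_iff]
      tauto
    rw [e2, Finset.card_filter]
    ring
  have h := hX Y (mem_univ _)
  rw [split X, split Y] at h
  have e3 : (∑ a ∈ univ.erase u, ∑ v ∈ univ.erase u,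
      if H.Adj a v ∧ ¬ (a ∈ Y ↔ v ∈ Y) then 1 else 0) =
      ∑ a ∈ univ.erase u, ∑ v ∈ univ.erase u, if H.Adj a v ∧ ¬ (a ∈ X ↔ v ∈ X) then 1 else 0 := by
    apply Finset.sum_congr rfl
    intro a ha
    apply Finset.sum_congr rfl
    intro v hv
    simp only [hY1 a (Finset.ne_of_mem_erase ha), hY1 v (Finset.ne_of_mem_erase hv)]
  have e4 : (univ.filter (fun v => H.Adj u v ∧ ¬ (u ∈ Y ↔ v ∈ Y))) =
      univ.filter (fun v => H.Adj u v ∧ (u ∈ X ↔ v ∈ X)) := by
    ext v
    simp only [mem_filter, mem_univ, true_and]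
    constructor
    · rintro ⟨h1, h2⟩
      have hne : v ≠ u := h1.ne'
      rw [hY1 v hne, hY2] at h2
      exact ⟨h1, by tauto⟩
    · rintro ⟨h1, h2⟩
      have hne : v ≠ u := h1.ne'
      rw [hY1 v hne, hY2]
      exact ⟨h1, by tauto⟩
  rw [e3, e4] at h
  omega

end Pool.Agent.TH559.LE
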