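import Mathlib
import Pool.Agent.TH559.LE.Red

set_option autoImplicit false

/-!
# Irreducible graphs
-/

namespace Pool.Agent.TH559.LE

open Finset

variable {V : Type}

/-- No nonempty bipartite set of edges of `H` is reducible. Here `A` is the remaining graph. -/
def Irr (H : SimpleGraph V) (D : ℕ) : Prop :=
  ∀ A : SimpleGraph V, A < H → ∀ X : V → Prop,
    (∀ u v, H.Adj u v → ¬ A.Adj u v → (X u ↔ ¬ X v)) →
    ∃ u v, H.Adj u v ∧ ¬ A.Adj u v ∧ D + 1 ≤ dg H u + dg A v

theorem red' [Fintype V] (G : SimpleGraph V) (D : ℕ) (L : Sym2 V → Finset ℕ)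
    (hL : ∀ u v, G.Adj u v → D ≤ (L s(u, v)).card)
    (h : ∀ H : SimpleGraph V, H ≤ G → H ≠ ⊥ → ¬ Irr H D) :
    ∃ c, Ok G L c := by
  apply red G L
  intro H hH hne
  have := h H hH hne
  unfold Irr at this
  push Not at this
  obtain ⟨A, hA, X, hX, hd⟩ := this
  refine ⟨A, hA, X, hX, fun u v h1 h2 => ?_⟩
  have := hd u v h1 h2
  have := hL u v (hH h1)
  omega

/-- The two ends of an edge of an irreducible graph have large degrees. -/
theorem irr_edge [Fintype V] {H : SimpleGraph V} {D : ℕ} (hI : Irr H D) {u v : V}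
    (h : H.Adj u v) : D + 2 ≤ dg H u + dg H v := by
  have hne : u ≠ v := h.ne
  obtain ⟨x, y, h1, h2, h3⟩ := hI (H.deleteEdges {s(u, v)}) (by
      refine lt_of_le_of_ne (SimpleGraph.deleteEdges_le _) ?_
      intro heq
      have : (H.deleteEdges {s(u, v)}).Adj u v := by rw [heq]; exact h
      rw [SimpleGraph.deleteEdges_adj] at this
      exact this.2 rfl) (fun w => w = u) (by
      intro x y h1 h2
      rw [SimpleGraph.deleteEdges_adj] at h2
      push Not at h2
      have h4 := h2 h1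
      rw [Set.mem_singleton_iff, Sym2.eq_iff] at h4
      rcases h4 with ⟨rfl, rfl⟩ | ⟨rfl, rfl⟩
      · simp [hne.symm]
      · simp [hne.symm])
  have h5 : dg (H.deleteEdges {s(u, v)}) y < dg H y :=
    dg_lt (SimpleGraph.deleteEdges_le _) h1.symm (fun h => h2 h.symm)
  rw [SimpleGraph.deleteEdges_adj] at h2
  push Not at h2
  have h4 := h2 h1
  rw [Set.mem_singleton_iff, Sym2.eq_iff] at h4
  rcases h4 with ⟨rfl, rfl⟩ | ⟨rfl, rfl⟩ <;> omega

open Classical in
/-- The maximum cut of the subgraph spanned by `Z`. -/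
theorem irr_cut [Fintype V] {H : SimpleGraph V} {D : ℕ} (hI : Irr H D) (Z : V → Prop) {u v : V}
    (h : H.Adj u v) (hu : Z u) (hv : Z v) :
    ∃ x y, H.Adj x y ∧ Z x ∧ Z y ∧
      2 * D + 2 ≤ 2 * dg H x + dg H y + (univ.filter (fun w => H.Adj y w ∧ ¬ Z w)).card := by
  let H' : SimpleGraph V :=
    { Adj := fun a b => H.Adj a b ∧ Z a ∧ Z b
      symm := ⟨fun a b h => ⟨h.1.symm, h.2.2, h.2.1⟩⟩
      loopless := ⟨fun a h => H.loopless.irrefl a h.1⟩ }
  obtain ⟨X, hX0⟩ := cut H'
  have hX : ∀ u, (univ.filter (fun v => H'.Adj u v ∧ (X u ↔ X v))).card ≤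
      (univ.filter (fun v => H'.Adj u v ∧ ¬ (X u ↔ X v))).card := by
    intro u
    refine le_of_eq_of_le ?_ (le_of_le_of_eq (hX0 u) ?_)
    · congr
    · congr
  let A : SimpleGraph V :=
    { Adj := fun a b => H.Adj a b ∧ ¬ (Z a ∧ Z b ∧ ¬ (X a ↔ X b))
      symm := ⟨fun a b h => ⟨h.1.symm, fun h' => h.2 ⟨h'.2.1, h'.1, fun h'' => h'.2.2 h''.symm⟩⟩⟩
      loopless := ⟨fun a h => H.loopless.irrefl a h.1⟩ }
  have hA : ∀ a b, A.Adj a b ↔ H.Adj a b ∧ ¬ (Z a ∧ Z b ∧ ¬ (X a ↔ X b)) := fun _ _ => Iff.rfl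
  have hH' : ∀ a b, H'.Adj a b ↔ H.Adj a b ∧ Z a ∧ Z b := fun _ _ => Iff.rfl
  have hle : A ≤ H := fun a b h => h.1
  obtain ⟨x, y, h1, h2, h3⟩ := hI A (by
      refine lt_of_le_of_ne hle ?_
      intro heq
      have h1 := hX u
      have h2 : 0 < (univ.filter (fun v => H'.Adj u v ∧ ¬ (X u ↔ X v))).card := by
        by_contra hcon
        have h3 : (univ.filter (fun v => H'.Adj u v ∧ ¬ (X u ↔ X v))).card = 0 := by omega
        have h4 : (univ.filter (fun v => H'.Adj u v ∧ (X u ↔ X v))).card = 0 := by omega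
        rw [Finset.card_eq_zero, Finset.filter_eq_empty_iff] at h3 h4
        by_cases hc : X u ↔ X v
        · exact h4 (mem_univ v) ⟨⟨h, hu, hv⟩, hc⟩
        · exact h3 (mem_univ v) ⟨⟨h, hu, hv⟩, hc⟩
      obtain ⟨w, hw⟩ := Finset.card_pos.1 h2
      rw [Finset.mem_filter] at hw
      obtain ⟨-, ⟨hw1, hw2, hw3⟩, hw4⟩ := hw
      have : A.Adj u w := by rw [heq]; exact hw1
      exact this.2 ⟨hw2, hw3, hw4⟩) X (by
      intro a b h1 h2
      rw [hA] at h2
      push Not at h2
      have := h2 h1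
      tauto)
  rw [hA] at h2
  have h2' : Z x ∧ Z y ∧ ¬ (X x ↔ X y) := by
    by_contra hcon
    exact h2 ⟨h1, hcon⟩
  refine ⟨x, y, h1, h2'.1, h2'.2.1, ?_⟩
  -- the degree in `A`
  have e1 : dg A y ≤ (univ.filter (fun w => H.Adj y w ∧ ¬ Z w)).card +
      (univ.filter (fun v => H'.Adj y v ∧ (X y ↔ X v))).card := by
    rw [dg_eq]
    refine (Finset.card_le_card ?_).trans (Finset.card_union_le _ _)
    intro w hw
    rw [Finset.mem_filter] at hw
    rw [Finset.mem_union, Finset.mem_filter, Finset.mem_filter]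
    have hw' := hw.2
    rw [hA] at hw'
    rw [hH']
    by_cases hz : Z w
    · right
      refine ⟨mem_univ _, ⟨hw'.1, h2'.2.1, hz⟩, ?_⟩
      by_contra hcon
      exact hw'.2 ⟨h2'.2.1, hz, hcon⟩
    · left
      exact ⟨mem_univ _, hw'.1, hz⟩
  have e2 : (univ.filter (fun w => H.Adj y w ∧ ¬ Z w)).card +
      ((univ.filter (fun v => H'.Adj y v ∧ (X y ↔ X v))).card +
      (univ.filter (fun v => H'.Adj y v ∧ ¬ (X y ↔ X v))).card) ≤ dg H y := by
    rw [dg_eq, ← Finset.card_union_of_disjoint, ← Finset.card_union_of_disjoint]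
    · apply Finset.card_le_card
      intro w hw
      rw [Finset.mem_union, Finset.mem_union, Finset.mem_filter, Finset.mem_filter,
        Finset.mem_filter] at hw
      rw [Finset.mem_filter]
      rcases hw with hw | hw | hw
      · exact ⟨mem_univ _, hw.2.1⟩
      · exact ⟨mem_univ _, hw.2.1.1⟩
      · exact ⟨mem_univ _, hw.2.1.1⟩
    · rw [Finset.disjoint_left]
      intro w hw1 hw2
      rw [Finset.mem_filter] at hw1
      rw [Finset.mem_union, Finset.mem_filter, Finset.mem_filter] at hw2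
      rcases hw2 with hw2 | hw2
      · exact hw1.2.2 hw2.2.1.2.2
      · exact hw1.2.2 hw2.2.1.2.2
    · rw [Finset.disjoint_left]
      intro w hw1 hw2
      rw [Finset.mem_filter] at hw1 hw2
      exact hw2.2.2 hw1.2.2
  have e3 := hX y
  omega

open Classical in
/-- The edges at the vertices of degree at most `k`, when these are independent. -/
theorem irr_small [Fintype V] {H : SimpleGraph V} {D : ℕ} (hI : Irr H D)
    (hD : ∀ v, dg H v ≤ D) (k : ℕ) (hk : ∀ u v, H.Adj u v → dg H u ≤ k → k < dg H v) {u v : V}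
    (h : H.Adj u v) (hu : dg H u ≤ k) :
    ∃ y, k < dg H y ∧ D + 1 ≤ k + (univ.filter (fun w => H.Adj y w ∧ k < dg H w)).card := by
  let A : SimpleGraph V :=
    { Adj := fun a b => H.Adj a b ∧ k < dg H a ∧ k < dg H b
      symm := ⟨fun a b h => ⟨h.1.symm, h.2.2, h.2.1⟩⟩
      loopless := ⟨fun a h => H.loopless.irrefl a h.1⟩ }
  have hA : ∀ a b, A.Adj a b ↔ H.Adj a b ∧ k < dg H a ∧ k < dg H b := fun _ _ => Iff.rfl
  obtain ⟨x, y, h1, h2, h3⟩ := hI A (by
      refine lt_of_le_of_ne (fun a b h => h.1) ?_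
      intro heq
      have : A.Adj u v := by rw [heq]; exact h
      exact absurd this.2.1 (not_lt.2 hu)) (fun w => dg H w ≤ k) (by
      intro a b h1 h2
      rw [hA] at h2
      push Not at h2
      have h4 := h2 h1
      have h5 := hk a b h1
      have h6 := hk b a h1.symm
      constructor
      · intro h7
        exact not_le.2 (h5 h7)
      · intro h7
        by_contra h8
        exact h7 (h4 (not_le.1 h8)))
  have hy : k < dg H y := by
    by_contra hcon
    have h4 : dg A y = 0 := by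
      rw [dg_eq, Finset.card_eq_zero, Finset.filter_eq_empty_iff]
      intro w _ hw
      exact hcon hw.2.1
    have := hD x
    omega
  have hx : dg H x ≤ k := by
    by_contra hcon
    exact h2 ⟨h1, not_le.1 hcon, hy⟩
  refine ⟨y, hy, ?_⟩
  have h4 : dg A y ≤ (univ.filter (fun w => H.Adj y w ∧ k < dg H w)).card := by
    rw [dg_eq]
    apply Finset.card_le_card
    intro w hw
    rw [Finset.mem_filter] at hw ⊢
    exact ⟨mem_univ _, hw.2.1, hw.2.2.2⟩
  omega

end Pool.Agent.TH559.LE
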