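import Mathlib
import Pool.Agent.TH559.LE.Irr

set_option autoImplicit false

/-!
# Graphs without irreducible subgraphs
-/

namespace Pool.Agent.TH559.LE

open Finset

variable {V : Type}

/-- A nonempty graph has an edge. -/
theorem ne_bot {H : SimpleGraph V} (h : H ≠ ⊥) : ∃ u v, H.Adj u v := by
  by_contra hcon
  push Not at hcon
  apply h
  ext u v
  simp [hcon u v]

theorem dg_pos [Fintype V] {H : SimpleGraph V} {u v : V} (h : H.Adj u v) : 0 < dg H u := by
  rw [dg, Set.ncard_pos (Set.toFinite _)]
  exact ⟨v, h⟩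

open Classical in
/-- An irreducible graph has a vertex of degree more than `2 D / 3`. -/
theorem irr_max [Fintype V] {H : SimpleGraph V} {D : ℕ} (hI : Irr H D) (hne : H ≠ ⊥) :
    ∃ x, 2 * D + 2 ≤ 3 * dg H x := by
  obtain ⟨u, v, h⟩ := ne_bot hne
  obtain ⟨x, y, -, -, -, h1⟩ := irr_cut hI (fun _ => True) h trivial trivial
  have h2 : (univ.filter (fun w => H.Adj y w ∧ ¬ True)).card = 0 := by
    rw [Finset.card_eq_zero, Finset.filter_eq_empty_iff]
    rintro w - ⟨-, h⟩
    exact h trivial
  have h3 : 2 * D + 2 ≤ 2 * dg H x + dg H y := by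
    refine h1.trans (le_of_eq ?_)
    have : (univ.filter (fun w => H.Adj y w ∧ ¬ True)).card = 0 := h2
    rw [Nat.add_eq_left]
    convert this
  rcases Nat.le_total (dg H x) (dg H y) with h | h
  · exact ⟨y, by omega⟩
  · exact ⟨x, by omega⟩

open Classical in
/-- The three cases for the vertices of degree at most `k`. -/
theorem irr_three [Fintype V] {H : SimpleGraph V} {D : ℕ} (hI : Irr H D) (hne : H ≠ ⊥)
    (hD : ∀ v, dg H v ≤ D) (k : ℕ) :
    (D + 2 ≤ 2 * k ∧ ∃ y, 2 * D + 2 ≤ 3 * k + (univ.filter (fun w => H.Adj y w ∧ k < dg H w)).card) ∨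
    (∃ y, k < dg H y ∧ D + 1 ≤ k + (univ.filter (fun w => H.Adj y w ∧ k < dg H w)).card) ∨
    (∃ y, k < dg H y ∧ 2 * D + 2 ≤ 3 * (univ.filter (fun w => H.Adj y w ∧ k < dg H w)).card) := by
  by_cases h1 : ∃ u v, H.Adj u v ∧ dg H u ≤ k
  · obtain ⟨u, v, huv, hu⟩ := h1
    by_cases h2 : ∃ u v, H.Adj u v ∧ dg H u ≤ k ∧ dg H v ≤ k
    · left
      obtain ⟨u, v, huv, hu, hv⟩ := h2
      obtain ⟨x, y, hxy, hx, hy, h⟩ := irr_cut hI (fun w => dg H w ≤ k) huv hu hv
      have h3 := irr_edge hI hxy
      refine ⟨by omega, y, ?_⟩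
      have h4 : (univ.filter (fun w => H.Adj y w ∧ ¬ (dg H w ≤ k))).card =
          (univ.filter (fun w => H.Adj y w ∧ k < dg H w)).card := by
        congr 1
        ext w
        simp only [mem_filter, mem_univ, true_and, not_le]
      have h5 : 2 * D + 2 ≤ 2 * dg H x + dg H y +
          (univ.filter (fun w => H.Adj y w ∧ k < dg H w)).card := by
        refine h.trans (le_of_eq ?_)
        rw [← h4]
        congr
      omega
    · right; left
      push Not at h2
      exact irr_small hI hD k h2 huv hu
  · right; right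
    push Not at h1
    obtain ⟨x, hx⟩ := irr_max hI hne
    have h2 : (univ.filter (fun w => H.Adj x w ∧ k < dg H w)).card = dg H x := by
      rw [dg_eq]
      congr 1
      ext w
      simp only [mem_filter, mem_univ, true_and, and_iff_left_iff_imp]
      intro h
      exact h1 w x h.symm
    refine ⟨x, ?_, by omega⟩
    have h3 : 0 < dg H x := by omega
    rw [dg, Set.ncard_pos (Set.toFinite _)] at h3
    obtain ⟨w, hw⟩ := h3
    exact h1 x w hw

open Classical in
theorem filter_le [Fintype V] {H G : SimpleGraph V} (h : H ≤ G) (k : ℕ) (y : V) :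
    (univ.filter (fun w => H.Adj y w ∧ k < dg H w)).card ≤
      (univ.filter (fun w => G.Adj y w ∧ k < dg G w)).card := by
  apply Finset.card_le_card
  intro w hw
  rw [Finset.mem_filter] at hw ⊢
  exact ⟨mem_univ _, h hw.2.1, lt_of_lt_of_le hw.2.2 (dg_mono h w)⟩

open Classical in
/-- Few neighbours of degree more than `k`, where `D / 3 ≤ k ≤ (D + 1) / 2`. -/
theorem no_irr1 [Fintype V] (G : SimpleGraph V) (D k : ℕ) (hD : ∀ v, dg G v ≤ D)
    (h3 : D ≤ 3 * k) (h2 : 2 * k ≤ D + 1)
    (hk : ∀ v, k < dg G v → (univ.filter (fun w => G.Adj v w ∧ k < dg G w)).card + k ≤ D)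
    (H : SimpleGraph V) (hH : H ≤ G) (hne : H ≠ ⊥) : ¬ Irr H D := by
  intro hI
  rcases irr_three hI hne (fun v => (dg_mono hH v).trans (hD v)) k with
    ⟨h, -⟩ | ⟨y, hy, h⟩ | ⟨y, hy, h⟩
  · omega
  · have h4 := hk y (lt_of_lt_of_le hy (dg_mono hH y))
    have h5 := filter_le hH k y
    omega
  · have h4 := hk y (lt_of_lt_of_le hy (dg_mono hH y))
    have h5 := filter_le hH k y
    omega

open Classical in
/-- Few neighbours of degree more than `k`, where `k ≥ (D + 1) / 2`. -/
theorem no_irr2 [Fintype V] (G : SimpleGraph V) (D k : ℕ) (hD : ∀ v, dg G v ≤ D)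
    (h2 : D + 1 ≤ 2 * k)
    (hk : ∀ v, (univ.filter (fun w => G.Adj v w ∧ k < dg G w)).card + 3 * k ≤ 2 * D + 1)
    (H : SimpleGraph V) (hH : H ≤ G) (hne : H ≠ ⊥) : ¬ Irr H D := by
  intro hI
  rcases irr_three hI hne (fun v => (dg_mono hH v).trans (hD v)) k with
    ⟨-, y, h⟩ | ⟨y, hy, h⟩ | ⟨y, hy, h⟩
  · have h4 := hk y
    have h5 := filter_le hH k y
    omega
  · have h4 := hk y
    have h5 := filter_le hH k y
    omega
  · have h4 := hk y
    have h5 := filter_le hH k y
    omega

theorem telescope (f P : ℕ → ℤ) (a b : ℕ) (hab : a ≤ b)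
    (h : ∀ k, a ≤ k → k < b → P (k + 1) - P k ≤ f k) :
    P b - P a ≤ ∑ k ∈ range b, f k - ∑ k ∈ range a, f k := by
  induction b, hab using Nat.le_induction with
  | base => simp
  | succ b hab ih =>
    rw [Finset.sum_range_succ]
    have h1 := ih (fun k hk hk' => h k hk (by omega))
    have h2 := h b hab (by omega)
    linarith

open Classical in
/-- Irreducible graphs have many edges. -/
theorem irr_many [Fintype V] {H : SimpleGraph V} {D : ℕ} (hI : Irr H D) (hne : H ≠ ⊥)
    (hD : ∀ v, dg H v ≤ D) : 13 * (D + 2) ^ 2 < 36 * ∑ v, dg H v := by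
  set N : ℕ → ℕ := fun k => (univ.filter (fun v => k < dg H v)).card with hN
  have hsub : ∀ k y, (univ.filter (fun w => H.Adj y w ∧ k < dg H w)).card ≤ N k := by
    intro k y
    apply Finset.card_le_card
    intro w hw
    rw [Finset.mem_filter] at hw ⊢
    exact ⟨mem_univ _, hw.2.2⟩
  have hsub' : ∀ k y, k < dg H y →
      (univ.filter (fun w => H.Adj y w ∧ k < dg H w)).card < N k := by
    intro k y hy
    apply Finset.card_lt_card
    refine ⟨fun w hw => ?_, fun h => ?_⟩
    · rw [Finset.mem_filter] at hw ⊢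
      exact ⟨mem_univ _, hw.2.2⟩
    · have := h (Finset.mem_filter.2 ⟨mem_univ y, hy⟩)
      rw [Finset.mem_filter] at this
      exact H.loopless.irrefl y this.2.1
  have three : ∀ k, (D + 2 ≤ 2 * k ∧ 2 * D + 2 ≤ 3 * k + N k) ∨ D + 2 ≤ k + N k ∨
      2 * D + 5 ≤ 3 * N k := by
    intro k
    rcases irr_three hI hne hD k with ⟨h, y, h'⟩ | ⟨y, hy, h⟩ | ⟨y, hy, h⟩
    · left
      have := hsub k y
      exact ⟨h, by omega⟩
    · right; left
      have := hsub' k y hy
      omega
    · right; right
      have := hsub' k y hy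
      omega
  have hsum : ∀ c, ∑ k ∈ range c, N k ≤ ∑ v, dg H v := by
    intro c
    simp only [hN]
    simp_rw [Finset.card_filter]
    rw [Finset.sum_comm]
    apply Finset.sum_le_sum
    intro v _
    rw [← Finset.card_filter]
    calc ((range c).filter (fun k => k < dg H v)).card ≤ (range (dg H v)).card := by
          apply Finset.card_le_card
          intro k hk
          rw [Finset.mem_filter] at hk
          exact Finset.mem_range.2 hk.2
      _ = dg H v := Finset.card_range _
  have main : ∀ a b c : ℕ, a ≤ b → b ≤ c → 3 * a ≤ D + 4 → D + 2 ≤ 3 * a → 2 * b ≤ D + 3 →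
      D + 2 ≤ 2 * b →
      2 * (a : ℤ) * (2 * D + 5) + (3 * b * (2 * D + 5 - b) - 3 * a * (2 * D + 5 - a)) +
        (3 * c * (4 * D + 7 - 3 * c) - 3 * b * (4 * D + 7 - 3 * b)) ≤ 6 * ∑ v, (dg H v : ℤ) := by
    intro a b c hab hbc h1 h2 h3 h4
    have t1 := telescope (fun k => 6 * (N k : ℤ)) (fun k => 2 * (k : ℤ) * (2 * D + 5)) 0 a
      (Nat.zero_le _) (by
        intro k _ hk
        rcases three k with h | h | h
        · exfalso; omega
        · push_cast; zify at h hk h1; nlinarith
        · push_cast; zify at h; nlinarith)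
    have t2 := telescope (fun k => 6 * (N k : ℤ)) (fun k => 3 * (k : ℤ) * (2 * D + 5 - k)) a b
      hab (by
        intro k hk1 hk2
        rcases three k with h | h | h
        · exfalso; omega
        · push_cast; zify at h; nlinarith
        · push_cast; zify at h hk1 h2; nlinarith)
    have t3 := telescope (fun k => 6 * (N k : ℤ)) (fun k => 3 * (k : ℤ) * (4 * D + 7 - 3 * k)) b c
      hbc (by
        intro k hk1 hk2
        rcases three k with h | h | h
        · have h := h.2
          push_cast; zify at h; nlinarith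
        · push_cast; zify at h hk1 h4; nlinarith
        · push_cast; zify at h hk1 h4; nlinarith)
    have t4 := hsum c
    zify at t4
    simp only [Finset.range_zero, Finset.sum_empty, Nat.cast_zero, mul_zero, zero_mul,
      sub_zero, ← Finset.mul_sum] at t1 t2 t3
    linarith
  have fin : 13 * ((D : ℤ) + 2) ^ 2 < 36 * ∑ v, (dg H v : ℤ) := by
    obtain ⟨q, s, hs, hDq⟩ : ∃ q s, s < 6 ∧ D = 6 * q + s :=
      ⟨D / 6, D % 6, by omega, by omega⟩
    have hq : (0 : ℤ) ≤ q := Int.natCast_nonneg _
    have hDz : (D : ℤ) = 6 * q + s := by rw [hDq]; push_cast; ring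
    interval_cases s
    · have h := main (2 * q + 1) (3 * q + 1) (4 * q + 1) (by omega) (by omega) (by omega)
        (by omega) (by omega) (by omega)
      push_cast at h
      rw [hDz] at h ⊢
      push_cast
      nlinarith
    · have h := main (2 * q + 1) (3 * q + 2) (4 * q + 2) (by omega) (by omega) (by omega)
        (by omega) (by omega) (by omega)
      push_cast at h
      rw [hDz] at h ⊢
      push_cast
      nlinarith
    · have h := main (2 * q + 2) (3 * q + 2) (4 * q + 3) (by omega) (by omega) (by omega)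
        (by omega) (by omega) (by omega)
      push_cast at h
      rw [hDz] at h ⊢
      push_cast
      nlinarith
    · have h := main (2 * q + 2) (3 * q + 3) (4 * q + 3) (by omega) (by omega) (by omega)
        (by omega) (by omega) (by omega)
      push_cast at h
      rw [hDz] at h ⊢
      push_cast
      nlinarith
    · have h := main (2 * q + 2) (3 * q + 3) (4 * q + 4) (by omega) (by omega) (by omega)
        (by omega) (by omega) (by omega)
      push_cast at h
      rw [hDz] at h ⊢
      push_cast
      nlinarith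
    · have h := main (2 * q + 3) (3 * q + 4) (4 * q + 5) (by omega) (by omega) (by omega)
        (by omega) (by omega) (by omega)
      push_cast at h
      rw [hDz] at h ⊢
      push_cast
      nlinarith
  zify
  exact fin

end Pool.Agent.TH559.LE
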