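import Mathlib
import Pool.Agent.TH559.LE.Few

set_option autoImplicit false

/-!
# Edge choosability in the frozen form
-/

namespace Pool.Agent.TH559.LE

open Finset

variable {V : Type}

/-- The edges of `G` can be coloured from all lists of at least `k` colours. -/
def Choosable (G : SimpleGraph V) (k : ℕ) : Prop :=
  ∀ L : G.edgeSet → Finset ℕ, (∀ e, k ≤ (L e).card) →
    ∃ f : G.edgeSet → ℕ, (∀ e, f e ∈ L e) ∧ ∀ e e', G.lineGraph.Adj e e' → f e ≠ f e'

theorem lg_iff (G : SimpleGraph V) (e e' : G.edgeSet) :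
    G.lineGraph.Adj e e' ↔ ∃ u v w, G.Adj u v ∧ G.Adj u w ∧ v ≠ w ∧ e.1 = s(u, v) ∧
      e'.1 = s(u, w) := by
  rw [SimpleGraph.lineGraph_adj_iff_exists]
  constructor
  · rintro ⟨hne, u, hu, hu'⟩
    obtain ⟨v, hv⟩ := hu
    obtain ⟨w, hw⟩ := hu'
    refine ⟨u, v, w, ?_, ?_, ?_, hv, hw⟩
    · rw [← SimpleGraph.mem_edgeSet, ← hv]
      exact e.2
    · rw [← SimpleGraph.mem_edgeSet, ← hw]
      exact e'.2
    · rintro rfl
      exact hne (Subtype.ext (hv.trans hw.symm))
  · rintro ⟨u, v, w, h1, h2, hne, he, he'⟩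
    refine ⟨?_, u, ?_, ?_⟩
    · rintro rfl
      rw [he, Sym2.eq_iff] at he'
      rcases he' with h | h
      · exact hne h.2
      · exact hne (h.2.trans h.1)
    · rw [he]
      exact Sym2.mem_mk_left _ _
    · rw [he']
      exact Sym2.mem_mk_left _ _

theorem choosable_iff (G : SimpleGraph V) (k : ℕ) : Choosable G k ↔
    ∀ L : Sym2 V → Finset ℕ, (∀ u v, G.Adj u v → k ≤ (L s(u, v)).card) → ∃ c, Ok G L c := by
  classical
  constructor
  · intro h L hL
    obtain ⟨f, hf1, hf2⟩ := h (fun e => L e.1) (by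
      rintro ⟨e, he⟩
      induction e using Sym2.ind with
      | _ u v => exact hL u v ((SimpleGraph.mem_edgeSet G).1 he))
    refine ⟨fun z => if h : z ∈ G.edgeSet then f ⟨z, h⟩ else 0, ?_, ?_⟩
    · intro u v huv
      have huv' := (SimpleGraph.mem_edgeSet G).2 huv
      simp only
      rw [dif_pos huv']
      exact hf1 ⟨s(u, v), huv'⟩
    · intro u v w h1 h2 hne
      have h1' := (SimpleGraph.mem_edgeSet G).2 h1
      have h2' := (SimpleGraph.mem_edgeSet G).2 h2
      simp only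
      rw [dif_pos h1', dif_pos h2']
      exact hf2 _ _ ((lg_iff G _ _).2 ⟨u, v, w, h1, h2, hne, rfl, rfl⟩)
  · intro h L hL
    obtain ⟨c, hc1, hc2⟩ := h (fun z => if h : z ∈ G.edgeSet then L ⟨z, h⟩ else ∅) (by
      intro u v huv
      have huv' := (SimpleGraph.mem_edgeSet G).2 huv
      rw [dif_pos huv']
      exact hL _)
    refine ⟨fun e => c e.1, ?_, ?_⟩
    · rintro ⟨e, he⟩
      induction e using Sym2.ind with
      | _ u v =>
        have := hc1 u v ((SimpleGraph.mem_edgeSet G).1 he)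
        simp only at this
        rwa [dif_pos he] at this
    · intro e e' h
      obtain ⟨u, v, w, h1, h2, hne, he, he'⟩ := (lg_iff G _ _).1 h
      show c e.1 ≠ c e'.1
      rw [he, he']
      exact hc2 u v w h1 h2 hne

/-- If the edges can be coloured from all lists of as many colours as the maximum degree, the list
edge-colouring conjecture holds. -/
theorem lecc [Fintype V] (G : SimpleGraph V) (D : ℕ) (h : Choosable G D) (v : V)
    (hv : dg G v = D) (k : ℕ) : G.lineGraph.Colorable k ↔ Choosable G k := by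
  constructor
  · rintro ⟨C⟩ L hL
    apply h L
    intro e
    refine le_trans ?_ (hL e)
    rw [← hv, dg, ← Nat.card_coe_set_eq]
    have : Function.Injective (fun w : G.neighborSet v =>
        C ⟨s(v, w.1), (SimpleGraph.mem_edgeSet G).2 w.2⟩) := by
      intro a b hab
      by_contra hne
      have hadj : G.lineGraph.Adj ⟨s(v, a.1), (SimpleGraph.mem_edgeSet G).2 a.2⟩
          ⟨s(v, b.1), (SimpleGraph.mem_edgeSet G).2 b.2⟩ :=
        (lg_iff G _ _).2 ⟨v, a.1, b.1, a.2, b.2, fun h => hne (Subtype.ext h), rfl, rfl⟩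
      exact C.valid hadj hab
    have h2 := Nat.card_le_card_of_injective _ this
    rwa [Nat.card_eq_fintype_card (α := Fin k), Fintype.card_fin] at h2
  · intro h
    obtain ⟨f, hf1, hf2⟩ := h (fun _ => range k) (by simp)
    exact ⟨SimpleGraph.Coloring.mk (fun e => (⟨f e, Finset.mem_range.1 (hf1 e)⟩ : Fin k)) (by
      intro e e' h heq
      exact hf2 e e' h (congrArg Fin.val heq))⟩

/-- The subgraph of the edges both of whose ends have degree more than `k`. -/
def core (G : SimpleGraph V) (k : ℕ) : SimpleGraph V where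
  Adj u v := G.Adj u v ∧ k < (G.neighborSet u).ncard ∧ k < (G.neighborSet v).ncard
  symm := ⟨fun _ _ h => ⟨h.1.symm, h.2.2, h.2.1⟩⟩
  loopless := ⟨fun _ h => G.loopless.irrefl _ h.1⟩

/-- If every graph `H` with `B < H ≤ G` has a reducible bipartite set of edges outside `B`, then
colourings of `B` extend. -/
theorem red_base [Fintype V] (G B : SimpleGraph V) (hB : B ≤ G) (L : Sym2 V → Finset ℕ)
    (hc : ∃ c, Ok B L c)
    (h : ∀ H : SimpleGraph V, B < H → H ≤ G → ∃ A : SimpleGraph V, B ≤ A ∧ A < H ∧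
      ∃ X : V → Prop, (∀ u v, H.Adj u v → ¬ A.Adj u v → (X u ↔ ¬ X v)) ∧
      ∀ u v, H.Adj u v → ¬ A.Adj u v → dg H u + dg A v ≤ (L s(u, v)).card) :
    ∃ c, Ok G L c := by
  by_contra hcon
  have hfin : {H : SimpleGraph V | B ≤ H ∧ H ≤ G ∧ ¬ ∃ c, Ok H L c}.Finite := Set.toFinite _
  obtain ⟨H, hH, hmin⟩ := hfin.exists_minimal ⟨G, hB, le_rfl, hcon⟩
  have hne : B < H := by
    refine lt_of_le_of_ne hH.1 ?_
    rintro rfl
    exact hH.2.2 hc
  obtain ⟨A, hBA, hA, X, hX, hd⟩ := h H hne hH.2.1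
  have hAok : ∃ c, Ok A L c := by
    by_contra hno
    have := hmin (y := A) ⟨hBA, hA.le.trans hH.2.1, hno⟩ hA.le
    exact absurd this (not_le_of_gt hA)
  obtain ⟨c, hc⟩ := hAok
  exact hH.2.2 (ext A H hA.le X hX L hd c hc)

/-- Greedy extension. -/
theorem greedy [Fintype V] (G B : SimpleGraph V) (hB : B ≤ G) (L : Sym2 V → Finset ℕ)
    (hc : ∃ c, Ok B L c)
    (h : ∀ u v, G.Adj u v → ¬ B.Adj u v → dg G u + dg G v ≤ (L s(u, v)).card + 1) :
    ∃ c, Ok G L c := by
  apply red_base G B hB L hc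
  intro H hBH hHG
  have hex : ∃ u v, H.Adj u v ∧ ¬ B.Adj u v := by
    by_contra hcon
    push Not at hcon
    exact absurd (show H ≤ B from fun u v h => hcon u v h) (not_le_of_gt hBH)
  obtain ⟨u, v, huv, huv'⟩ := hex
  have hne : u ≠ v := huv.ne
  have key : ∀ x y, H.Adj x y → ¬ (H.deleteEdges {s(u, v)}).Adj x y →
      (x = u ∧ y = v) ∨ (x = v ∧ y = u) := by
    intro x y h1 h2
    rw [SimpleGraph.deleteEdges_adj] at h2
    push Not at h2
    have h4 := h2 h1
    rwa [Set.mem_singleton_iff, Sym2.eq_iff] at h4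
  refine ⟨H.deleteEdges {s(u, v)}, ?_, ?_, fun w => w = u, ?_, ?_⟩
  · intro x y hxy
    by_contra hcon
    rcases key x y (hBH.le hxy) hcon with ⟨rfl, rfl⟩ | ⟨rfl, rfl⟩
    · exact huv' hxy
    · exact huv' hxy.symm
  · refine lt_of_le_of_ne (SimpleGraph.deleteEdges_le _) ?_
    intro heq
    have : (H.deleteEdges {s(u, v)}).Adj u v := by rw [heq]; exact huv
    rw [SimpleGraph.deleteEdges_adj] at this
    exact this.2 rfl
  · intro x y h1 h2
    rcases key x y h1 h2 with ⟨rfl, rfl⟩ | ⟨rfl, rfl⟩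
    · simp [hne.symm]
    · simp [hne.symm]
  · intro x y h1 h2
    have h5 : dg (H.deleteEdges {s(u, v)}) y < dg H y :=
      dg_lt (SimpleGraph.deleteEdges_le _) h1.symm (fun h => h2 h.symm)
    have h6 := dg_mono hHG x
    have h7 := dg_mono hHG y
    have h8 := h x y (hHG h1) (by
      intro hB
      rcases key x y h1 h2 with ⟨rfl, rfl⟩ | ⟨rfl, rfl⟩
      · exact huv' hB
      · exact huv' hB.symm)
    omega

/-- Reduction to the core. -/
theorem of_core [Fintype V] (G : SimpleGraph V) (D k : ℕ) (hD : ∀ v, dg G v ≤ D)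
    (h2 : 2 * k ≤ D + 1)
    (hk : ∀ v, k < dg G v → dg (core G k) v + k ≤ D) (hc : Choosable (core G k) D) :
    Choosable G D := by
  classical
  rw [choosable_iff] at hc ⊢
  intro L hL
  obtain ⟨c, hc⟩ := hc L (fun u v h => hL u v h.1)
  let B : SimpleGraph V :=
    { Adj := fun a b => G.Adj a b ∧ (k < dg G a ∨ k < dg G b)
      symm := ⟨fun a b h => ⟨h.1.symm, h.2.symm⟩⟩
      loopless := ⟨fun a h => G.loopless.irrefl a h.1⟩ }
  have hBG : B ≤ G := fun a b h => h.1
  have hcB : core G k ≤ B := fun a b h => ⟨h.1, Or.inl h.2.1⟩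
  have hsm : ∀ v, ¬ k < dg G v → dg (core G k) v = 0 := by
    intro v hv
    rw [dg, Set.ncard_eq_zero (Set.toFinite _)]
    ext w
    simp only [SimpleGraph.mem_neighborSet, Set.mem_empty_iff_false, iff_false]
    intro h
    exact hv h.2.1
  have hB : ∃ c, Ok B L c := by
    refine ext (core G k) B hcB (fun v => k < dg G v) ?_ L ?_ c hc
    · intro u v h1 h2
      have h3 : ¬ (k < dg G u ∧ k < dg G v) := fun h => h2 ⟨h1.1, h.1, h.2⟩
      have h4 := h1.2
      tauto
    · intro u v h1 h2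
      have h3 : ¬ (k < dg G u ∧ k < dg G v) := fun h => h2 ⟨h1.1, h.1, h.2⟩
      have h5 := hL u v h1.1
      have h6 := dg_mono hBG u
      have h7 := hD u
      by_cases hv : k < dg G v
      · have h8 : ¬ k < dg G u := fun h => h3 ⟨h, hv⟩
        have h9 := hk v hv
        omega
      · have := hsm v hv
        omega
  apply greedy G B hBG L hB
  intro u v h1 h2
  have h3 : ¬ (k < dg G u ∨ k < dg G v) := fun h => h2 ⟨h1, h⟩
  have := hL u v h1
  omega

theorem of_not_irr [Fintype V] (G : SimpleGraph V) (D : ℕ)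
    (h : ∀ H : SimpleGraph V, H ≤ G → H ≠ ⊥ → ¬ Irr H D) : Choosable G D := by
  rw [choosable_iff]
  intro L hL
  exact red' G D L hL h

theorem sum_dg [Fintype V] (H : SimpleGraph V) : ∑ v, dg H v = 2 * H.edgeSet.ncard := by
  classical
  have h1 := SimpleGraph.sum_degrees_eq_twice_card_edges H
  have h2 : H.edgeSet.ncard = H.edgeFinset.card := by
    rw [← SimpleGraph.coe_edgeFinset, Set.ncard_coe_finset]
  rw [h2, ← h1]
  apply Finset.sum_congr rfl
  intro v _
  rw [dg, ← SimpleGraph.card_neighborFinset_eq_degree, ← Set.ncard_coe_finset]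
  congr 1
  ext w
  simp

/-- The heavy edges: the edges whose ends have degrees with sum at least `D + 2`. -/
def heavy (G : SimpleGraph V) (D : ℕ) : SimpleGraph V where
  Adj u v := G.Adj u v ∧ D + 2 ≤ (G.neighborSet u).ncard + (G.neighborSet v).ncard
  symm := ⟨fun _ _ h => ⟨h.1.symm, h.2.trans (Nat.add_comm _ _).le⟩⟩
  loopless := ⟨fun _ h => G.loopless.irrefl _ h.1⟩

theorem irr_heavy [Fintype V] {G H : SimpleGraph V} {D : ℕ} (hH : H ≤ G) (hI : Irr H D) :
    H ≤ heavy G D := by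
  intro u v huv
  have h1 := irr_edge hI huv
  have h2 := dg_mono hH u
  have h3 := dg_mono hH v
  refine ⟨hH huv, ?_⟩
  unfold dg at h1 h2 h3
  omega

theorem of_few [Fintype V] (G : SimpleGraph V) (D : ℕ) (hD : ∀ v, dg G v ≤ D)
    (h : 72 * (heavy G D).edgeSet.ncard ≤ 13 * (D + 2) ^ 2) : Choosable G D := by
  apply of_not_irr
  intro H hH hne hI
  have h1 := irr_many hI hne (fun v => (dg_mono hH v).trans (hD v))
  rw [sum_dg] at h1
  have h2 : H.edgeSet.ncard ≤ (heavy G D).edgeSet.ncard :=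
    Set.ncard_le_ncard (SimpleGraph.edgeSet_mono (irr_heavy hH hI)) (Set.toFinite _)
  omega

end Pool.Agent.TH559.LE
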