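import Mathlib
import Pool.Agent.TH559.LE.Trans
import Pool.Agent.TH559.LE.Split

set_option autoImplicit false

/-!
# Local lists

For every `ε > 0` there is `K` such that the edges of every graph on `n` vertices with all degrees
at most `D` can be coloured from lists such that the list of the edge `uv` has at least
`max (deg u) (deg v) + ε D + K (1 + log (n + 1))` members.
-/

namespace Pool.Agent.TH559.LE

open Finset

variable {V : Type}

/-- The edges within the two sides of a partition. -/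
def inn (G : SimpleGraph V) (A : Finset V) : SimpleGraph V where
  Adj u v := G.Adj u v ∧ (u ∈ A ↔ v ∈ A)
  symm := ⟨fun _ _ h => ⟨h.1.symm, h.2.symm⟩⟩
  loopless := ⟨fun _ h => G.loopless.irrefl _ h.1⟩

/-- The edges between the two sides of a partition. -/
def crs (G : SimpleGraph V) (A : Finset V) : SimpleGraph V where
  Adj u v := G.Adj u v ∧ ¬ (u ∈ A ↔ v ∈ A)
  symm := ⟨fun _ _ h => ⟨h.1.symm, fun h' => h.2 h'.symm⟩⟩
  loopless := ⟨fun _ h => G.loopless.irrefl _ h.1⟩

theorem dg_bot [Fintype V] (u : V) : dg (⊥ : SimpleGraph V) u = 0 := by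
  rw [dg, Set.ncard_eq_zero (Set.toFinite _)]
  ext w
  simp

theorem ok_bot (L : Sym2 V → Finset ℕ) : ∃ c, Ok (⊥ : SimpleGraph V) L c :=
  ⟨fun _ => 0, fun u v h => absurd h (by simp), fun u v w h => absurd h (by simp)⟩

open Classical in
theorem vsplit [Fintype V] (G : SimpleGraph V) (W : Finset V) (t N : ℝ) (ht : 0 < t)
    (hN : 0 < N) (hdN : ∀ u ∈ W, (dg G u : ℝ) ≤ N)
    (hW : 2 * W.card * Real.exp (-(t ^ 2 / (4 * N))) < 1) :
    ∃ S : Finset V, ∀ u ∈ W, (dg (inn G S) u : ℝ) ≤ dg G u / 2 + t ∧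
      (dg (crs G S) u : ℝ) ≤ dg G u / 2 + t := by
  obtain ⟨S, hS⟩ := split W (fun u => univ.filter (fun v => G.Adj u v)) (1 / 2) t N
    (by norm_num) (by norm_num) ht hN (by
      intro u hu
      rw [← dg_eq]
      exact hdN u hu) hW
  refine ⟨S, fun u hu => ?_⟩
  obtain ⟨h1, h2⟩ := hS u hu
  have h3 : ((univ.filter (fun v => G.Adj u v)) ∩ S).card +
      ((univ.filter (fun v => G.Adj u v)) \ S).card = dg G u := by
    rw [dg_eq, add_comm]
    exact Finset.card_sdiff_add_card_inter _ _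
  rw [← dg_eq] at h1 h2
  have h3' : ((((univ.filter (fun v => G.Adj u v)) ∩ S).card : ℕ) : ℝ) +
      (((univ.filter (fun v => G.Adj u v)) \ S).card : ℕ) = dg G u := by exact_mod_cast h3
  have hin : ∀ a b, (inn G S).Adj a b ↔ G.Adj a b ∧ (a ∈ S ↔ b ∈ S) := fun _ _ => Iff.rfl
  have hcr : ∀ a b, (crs G S).Adj a b ↔ G.Adj a b ∧ ¬ (a ∈ S ↔ b ∈ S) := fun _ _ => Iff.rfl
  by_cases huS : u ∈ S
  · have e1 : dg (inn G S) u = ((univ.filter (fun v => G.Adj u v)) ∩ S).card := by
      rw [dg_eq]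
      congr 1
      ext v
      rw [mem_filter, hin, mem_inter, mem_filter]
      tauto
    have e2 : dg (crs G S) u = ((univ.filter (fun v => G.Adj u v)) \ S).card := by
      rw [dg_eq]
      congr 1
      ext v
      rw [mem_filter, hcr, mem_sdiff, mem_filter]
      tauto
    rw [e1, e2]
    constructor <;> linarith
  · have e1 : dg (inn G S) u = ((univ.filter (fun v => G.Adj u v)) \ S).card := by
      rw [dg_eq]
      congr 1
      ext v
      rw [mem_filter, hin, mem_sdiff, mem_filter]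
      tauto
    have e2 : dg (crs G S) u = ((univ.filter (fun v => G.Adj u v)) ∩ S).card := by
      rw [dg_eq]
      congr 1
      ext v
      rw [mem_filter, hcr, mem_inter, mem_filter]
      tauto
    rw [e1, e2]
    constructor <;> linarith

theorem ok_union (G H1 H2 : SimpleGraph V) (L L1 L2 : Sym2 V → Finset ℕ) (C : Finset ℕ)
    (h : ∀ u v, G.Adj u v → H1.Adj u v ∨ H2.Adj u v)
    (hL1 : ∀ z, L1 z ⊆ L z \ C) (hL2 : ∀ z, L2 z ⊆ L z ∩ C) (c1 c2 : Sym2 V → ℕ)
    (h1 : Ok H1 L1 c1) (h2 : Ok H2 L2 c2) : ∃ c, Ok G L c := by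
  classical
  have hA : ∀ u v, H1.Adj u v →
      (fun z => if z ∈ H1.edgeSet then c1 z else c2 z) s(u, v) = c1 s(u, v) := by
    intro u v huv
    simp only
    rw [if_pos ((SimpleGraph.mem_edgeSet H1).2 huv)]
  have hB : ∀ u v, ¬ H1.Adj u v →
      (fun z => if z ∈ H1.edgeSet then c1 z else c2 z) s(u, v) = c2 s(u, v) := by
    intro u v huv
    simp only
    rw [if_neg (fun h => huv ((SimpleGraph.mem_edgeSet H1).1 h))]
  refine ⟨fun z => if z ∈ H1.edgeSet then c1 z else c2 z, ?_, ?_⟩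
  · intro u v huv
    by_cases hh : H1.Adj u v
    · rw [hA u v hh]
      exact (Finset.mem_sdiff.1 (hL1 _ (h1.1 u v hh))).1
    · rw [hB u v hh]
      exact (Finset.mem_inter.1 (hL2 _ (h2.1 u v ((h u v huv).resolve_left hh)))).1
  · intro u v w huv huw hne
    by_cases hv : H1.Adj u v
    · by_cases hw : H1.Adj u w
      · rw [hA u v hv, hA u w hw]
        exact h1.2 u v w hv hw hne
      · rw [hA u v hv, hB u w hw]
        have a1 := (Finset.mem_sdiff.1 (hL1 _ (h1.1 u v hv))).2
        have a2 := (Finset.mem_inter.1 (hL2 _ (h2.1 u w ((h u w huw).resolve_left hw)))).2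
        intro heq
        rw [heq] at a1
        exact a1 a2
    · by_cases hw : H1.Adj u w
      · rw [hB u v hv, hA u w hw]
        have a1 := (Finset.mem_sdiff.1 (hL1 _ (h1.1 u w hw))).2
        have a2 := (Finset.mem_inter.1 (hL2 _ (h2.1 u v ((h u v huv).resolve_left hv)))).2
        intro heq
        rw [← heq] at a1
        exact a1 a2
      · rw [hB u v hv, hB u w hw]
        exact h2.2 u v w ((h u v huv).resolve_left hv) ((h u w huw).resolve_left hw) hne

theorem small_exp (b : ℝ) (hb : 0 < b) (n : ℕ) (M : ℝ)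
    (hM : 3 / b * (1 + Real.log (n + 1)) ≤ M) :
    2 * ((n : ℝ) * n + n) * Real.exp (-(b * M)) < 1 := by
  have h1 : 3 * (1 + Real.log (n + 1)) ≤ b * M := by
    have := mul_le_mul_of_nonneg_left hM hb.le
    have e : b * (3 / b * (1 + Real.log (n + 1))) = 3 * (1 + Real.log (n + 1)) := by
      field_simp
    linarith
  have hn : (0 : ℝ) < n + 1 := by positivity
  have h2 : Real.exp (3 * (1 + Real.log (n + 1))) ≤ Real.exp (b * M) := Real.exp_le_exp.2 h1
  have h3 : Real.exp (3 * (1 + Real.log (n + 1))) = Real.exp 3 * (n + 1) ^ 3 := by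
    have : 3 * (1 + Real.log ((n : ℝ) + 1)) = 3 + (3 : ℕ) * Real.log (n + 1) := by
      push_cast; ring
    rw [this, Real.exp_add, Real.exp_nat_mul, Real.exp_log hn]
  have h4 : (3 : ℝ) + 1 ≤ Real.exp 3 := Real.add_one_le_exp 3
  have h5 : 2 * ((n : ℝ) * n + n) < Real.exp (b * M) := by
    have h6 : (4 : ℝ) * (n + 1) ^ 3 ≤ Real.exp 3 * (n + 1) ^ 3 :=
      mul_le_mul_of_nonneg_right (by linarith) (by positivity)
    have h7 : 2 * ((n : ℝ) * n + n) < 4 * (n + 1) ^ 3 := by
      have : (0 : ℝ) ≤ n := by positivity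
      nlinarith [mul_nonneg this this, mul_nonneg this (mul_nonneg this this)]
    linarith
  rw [Real.exp_neg, ← div_eq_mul_inv, div_lt_one (Real.exp_pos _)]
  exact h5

/-- Local lists with multiplicative slack `κ`. -/
def PL (κ : ℝ) : Prop := ∀ η : ℝ, 0 < η → ∃ C : ℝ, 0 < C ∧ ∀ (V : Type) [Fintype V]
  (G : SimpleGraph V) (W : Finset V) (M : ℝ) (w : V → ℝ) (L : Sym2 V → Finset ℕ),
  C * (1 + Real.log (W.card + 1)) ≤ M → (∀ u v, G.Adj u v → u ∈ W) →
  (∀ u ∈ W, (dg G u : ℝ) ≤ w u ∧ η * M ≤ w u ∧ w u ≤ M) →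
  (∀ u v, G.Adj u v → (1 + κ) * w u ≤ (L s(u, v)).card) → ∃ c, Ok G L c

theorem PL_base (κ : ℝ) (hκ : 1 ≤ κ) : PL κ := by
  intro η hη
  refine ⟨1, one_pos, ?_⟩
  intro V _ G W M w L _ hW hw hL
  apply greedy G ⊥ bot_le L (ok_bot L)
  intro u v huv _
  have h1 := (hw u (hW u v huv)).1
  have h2 := (hw v (hW v u huv.symm)).1
  have h3 := hL u v huv
  have h4 := hL v u huv.symm
  rw [Sym2.eq_swap] at h4
  have h5 : (0 : ℝ) ≤ dg G u := by positivity
  have h6 : (0 : ℝ) ≤ dg G v := by positivity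
  have h7 : (dg G u : ℝ) + dg G v ≤ (L s(u, v)).card := by nlinarith
  have h8 : dg G u + dg G v ≤ (L s(u, v)).card := by exact_mod_cast h7
  omega

theorem one_le_log_add (n : ℕ) : 1 ≤ 1 + Real.log ((n : ℝ) + 1) := by
  have : 0 ≤ Real.log ((n : ℝ) + 1) := Real.log_nonneg (by
    have : (0 : ℝ) ≤ n := by positivity
    linarith)
  linarith

theorem PL_step (κ : ℝ) (h0 : 0 < κ) (h1 : κ ≤ 1) (h : PL (3 / 2 * κ)) : PL κ := by
  intro η hη
  obtain ⟨C1, hC1, hn1⟩ := h (η / 2) (by positivity)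
  set θ : ℝ := κ * η / 24 with hθ
  have hθ0 : 0 < θ := by positivity
  set b : ℝ := θ ^ 2 / 24 with hb
  have hb0 : 0 < b := by positivity
  refine ⟨max (max C1 (3 / b)) 1, by positivity, ?_⟩
  intro V _ G W M w L hM hW hw hL
  classical
  have hl := one_le_log_add W.card
  have hl0 : 0 ≤ 1 + Real.log ((W.card : ℝ) + 1) := by linarith
  have hMa : C1 * (1 + Real.log (W.card + 1)) ≤ M :=
    le_trans (mul_le_mul_of_nonneg_right (le_trans (le_max_left _ _) (le_max_left _ _)) hl0) hM
  have hMb : 3 / b * (1 + Real.log (W.card + 1)) ≤ M :=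
    le_trans (mul_le_mul_of_nonneg_right (le_trans (le_max_right _ _) (le_max_left _ _)) hl0) hM
  have hMc : 1 ≤ M := by
    have : 1 * (1 + Real.log ((W.card : ℝ) + 1)) ≤ M :=
      le_trans (mul_le_mul_of_nonneg_right (le_max_right _ _) hl0) hM
    linarith
  rcases W.eq_empty_or_nonempty with hWe | hWne
  · apply greedy G ⊥ bot_le L (ok_bot L)
    intro u v huv _
    have := hW u v huv
    rw [hWe] at this
    simp at this
  have hexp := small_exp b hb0 W.card M hMb
  set n : ℕ := W.card with hnW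
  have hM0 : 0 < M := by linarith
  set t : ℝ := θ * M with ht
  have ht0 : 0 < t := by positivity
  have hη1 : η ≤ 1 := by
    obtain ⟨u, hu⟩ := hWne
    have h2 := (hw u hu).2
    have h3 := h2.1.trans h2.2
    by_contra hcon
    have := not_le.1 hcon
    nlinarith
  -- the size of the truncated lists
  obtain ⟨B, hB1, hB2⟩ : ∃ B : ℕ, 2 * M ≤ B ∧ (B : ℝ) ≤ 6 * M :=
    ⟨⌈2 * M⌉₊, Nat.le_ceil _, by
      have := (Nat.ceil_lt_add_one (by positivity : 0 ≤ 2 * M)).le
      linarith⟩
  have hN0 : (0 : ℝ) < 6 * M := by positivity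
  have hE : t ^ 2 / (4 * (6 * M)) = b * M := by
    rw [ht, hb]; field_simp; ring
  have hexp0 : 0 < Real.exp (-(b * M)) := Real.exp_pos _
  have hn0 : (0 : ℝ) ≤ n := by positivity
  -- the vertices
  obtain ⟨A, hA⟩ := vsplit G W t (6 * M) ht0 hN0 (by
    intro u hu
    have := hw u hu
    linarith [this.1, this.2.2]) (by
    rw [hE]
    have h3 : (2 * (n : ℝ)) ≤ 2 * ((n : ℝ) * n + n) := by nlinarith
    have h4 := mul_le_mul_of_nonneg_right h3 hexp0.le
    linarith)
  -- the truncated lists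
  have hex : ∀ z, ∃ s ⊆ L z, s.card = min (L z).card B := fun z =>
    Finset.exists_subset_card_eq (min_le_left _ _)
  choose L' hL'1 hL'2 using hex
  have hL'3 : ∀ u v, G.Adj u v → (1 + κ) * w u ≤ (L' s(u, v)).card := by
    intro u v huv
    rw [hL'2]
    push_cast
    apply le_min (hL u v huv)
    have := (hw u (hW u v huv)).2.2
    have h3 : 0 ≤ w u := le_trans (by positivity) (hw u (hW u v huv)).1
    nlinarith
  set p : ℝ := (1 / 2 + κ / 12) / (1 + κ) with hp
  have hp1 : p * (1 + κ) = 1 / 2 + κ / 12 := by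
    rw [hp]; field_simp
  have hp0 : 0 ≤ p := by positivity
  have hp2 : p ≤ 1 := by
    rw [hp, div_le_one (by positivity)]
    linarith
  obtain ⟨C, hC⟩ := split (W ×ˢ W) (fun e => L' s(e.1, e.2)) p t (6 * M) hp0 hp2 ht0 hN0 (by
    intro e _
    rw [hL'2]
    push_cast
    exact (min_le_right _ _).trans hB2) (by
    rw [hE, Finset.card_product]
    push_cast
    have h3 : 2 * ((n : ℝ) * n) ≤ 2 * ((n : ℝ) * n + n) := by nlinarith
    have h4 := mul_le_mul_of_nonneg_right h3 hexp0.le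
    linarith)
  have hCe : ∀ u v, G.Adj u v → p * (L' s(u, v)).card - t ≤ (L' s(u, v) ∩ C).card ∧
      (1 - p) * (L' s(u, v)).card - t ≤ (L' s(u, v) \ C).card := by
    intro u v huv
    exact hC (u, v) (Finset.mem_product.2 ⟨hW u v huv, hW v u huv.symm⟩)
  have hwt : ∀ u ∈ W, 2 * t ≤ κ * w u / 12 := by
    intro u hu
    have h3 := (hw u hu).2.1
    have h4 := mul_le_mul_of_nonneg_left h3 h0.le
    have h5 : 2 * t = κ * (η * M) / 12 := by rw [ht, hθ]; ring
    linarith
  -- the edges within the sides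
  obtain ⟨c1, hc1⟩ := hn1 V (inn G A) W M (fun u => w u / 2 + t) (fun z => L' z \ C) hMa
    (fun u v huv => hW u v huv.1) (by
      intro u hu
      have a1 := (hA u hu).1
      have a2 := hw u hu
      refine ⟨?_, ?_, ?_⟩
      · linarith [a2.1]
      · linarith [a2.2.1]
      · have : t ≤ M / 2 := by
          have h3 : κ * η ≤ 1 := by nlinarith
          have h4 := mul_le_mul_of_nonneg_right h3 hM0.le
          have h5 : t = κ * η * M / 24 := by rw [ht, hθ]; ring
          linarith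
        linarith [a2.2.2]) (by
      intro u v huv
      have hu := hW u v huv.1
      have a1 := (hCe u v huv.1).2
      have a2 := hL'3 u v huv.1
      have a3 := hwt u hu
      have a4 : (1 - p) * ((1 + κ) * w u) ≤ (1 - p) * (L' s(u, v)).card :=
        mul_le_mul_of_nonneg_left a2 (by linarith)
      have a5 : (1 - p) * ((1 + κ) * w u) = (1 / 2 + 11 * κ / 12) * w u := by
        have : (1 - p) * ((1 + κ) * w u) = ((1 + κ) - p * (1 + κ)) * w u := by ring
        rw [this, hp1]; ring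
      have a6 : (1 + 3 / 2 * κ) * (w u / 2 + t) ≤ (1 / 2 + 11 * κ / 12) * w u - t := by
        nlinarith
      linarith)
  -- the edges between the sides
  obtain ⟨c0, hc0⟩ := ok_bot (V := V) (fun z => L' z ∩ C)
  obtain ⟨c2, hc2⟩ := ext ⊥ (crs G A) bot_le (fun u => u ∈ A)
    (fun u v huv _ => by
      have := huv.2
      tauto)
    (fun z => L' z ∩ C) (by
      intro u v huv _
      rw [dg_bot, add_zero]
      have hu := hW u v huv.1
      have a0 := (hA u hu).2
      have a1 := (hCe u v huv.1).1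
      have a2 := hL'3 u v huv.1
      have a3 := hwt u hu
      have a7 := (hw u hu).1
      have a4 : p * ((1 + κ) * w u) ≤ p * (L' s(u, v)).card :=
        mul_le_mul_of_nonneg_left a2 hp0
      have a5 : p * ((1 + κ) * w u) = (1 / 2 + κ / 12) * w u := by
        have : p * ((1 + κ) * w u) = (p * (1 + κ)) * w u := by ring
        rw [this, hp1]
      have a6 : (dg (crs G A) u : ℝ) ≤ (L' s(u, v) ∩ C).card := by
        linarith
      exact_mod_cast a6) c0 hc0
  refine ok_union G (inn G A) (crs G A) L (fun z => L' z \ C) (fun z => L' z ∩ C) C ?_ ?_ ?_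
    c1 c2 hc1 hc2
  · intro u v huv
    by_cases hc : u ∈ A ↔ v ∈ A
    · exact Or.inl ⟨huv, hc⟩
    · exact Or.inr ⟨huv, hc⟩
  · intro z
    exact Finset.sdiff_subset_sdiff (hL'1 z) (Finset.Subset.refl _)
  · intro z
    exact Finset.inter_subset_inter (hL'1 z) (Finset.Subset.refl _)

theorem PL_all : ∀ (m : ℕ) (κ : ℝ), 0 < κ → 1 ≤ (3 / 2 : ℝ) ^ m * κ → PL κ := by
  intro m
  induction m with
  | zero =>
    intro κ _ h
    rw [pow_zero, one_mul] at h
    exact PL_base κ h
  | succ m ih =>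
    intro κ h0 h
    rcases le_total 1 κ with h1 | h1
    · exact PL_base κ h1
    · apply PL_step κ h0 h1
      apply ih _ (by positivity)
      rw [pow_succ] at h
      linarith

/-- Local lists: `W` contains all vertices which are not isolated. -/
theorem local_lists (ε : ℝ) (hε : 0 < ε) : ∃ K : ℝ, 0 < K ∧ ∀ (V : Type) [Fintype V]
    (G : SimpleGraph V) (D : ℕ) (W : Finset V) (L : Sym2 V → Finset ℕ), (∀ u, dg G u ≤ D) →
    (∀ u v, G.Adj u v → u ∈ W) →
    (∀ u v, G.Adj u v →
      (dg G u : ℝ) + ε * D + K * (1 + Real.log (W.card + 1)) ≤ (L s(u, v)).card) →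
    ∃ c, Ok G L c := by
  set δ : ℝ := min ε 1 / 2 with hδ
  have hδ0 : 0 < δ := by
    have : 0 < min ε 1 := lt_min hε one_pos
    positivity
  have hδ1 : 2 * δ ≤ ε := by
    have := min_le_left ε 1
    rw [hδ]; linarith
  have hδ2 : 2 * δ ≤ 1 := by
    have := min_le_right ε 1
    rw [hδ]; linarith
  obtain ⟨m, hm⟩ := pow_unbounded_of_one_lt (1 / δ) (by norm_num : (1 : ℝ) < 3 / 2)
  have hPL : PL δ := PL_all m δ hδ0 (by
    rw [div_lt_iff₀ hδ0] at hm
    exact hm.le)
  obtain ⟨C, hC0, hC⟩ := hPL δ hδ0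
  refine ⟨C, hC0, ?_⟩
  intro V _ G D W L hD hW hL
  have hl := one_le_log_add W.card
  have hl0 : 0 ≤ C * (1 + Real.log ((W.card : ℝ) + 1)) := by
    apply mul_nonneg hC0.le
    linarith
  have hD0 : (0 : ℝ) ≤ D := by positivity
  set M : ℝ := D + C * (1 + Real.log ((W.card : ℝ) + 1)) with hM
  have hM0 : 0 ≤ M := by linarith
  apply hC V G W M (fun u => max (dg G u : ℝ) (δ * M)) L (by linarith) hW
  · intro u _
    refine ⟨le_max_left _ _, le_max_right _ _, max_le ?_ ?_⟩
    · have : (dg G u : ℝ) ≤ D := by exact_mod_cast hD u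
      linarith
    · nlinarith
  · intro u v huv
    have h1 := hL u v huv
    have h3 : max (dg G u : ℝ) (δ * M) ≤ dg G u + δ * M := by
      apply max_le
      · have : 0 ≤ δ * M := by positivity
        linarith
      · have : (0 : ℝ) ≤ dg G u := by positivity
        linarith
    have h4 : max (dg G u : ℝ) (δ * M) ≤ M := by
      apply max_le
      · have : (dg G u : ℝ) ≤ D := by exact_mod_cast hD u
        linarith
      · nlinarith
    have h6 : δ * max (dg G u : ℝ) (δ * M) ≤ δ * M :=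
      mul_le_mul_of_nonneg_left h4 hδ0.le
    have h7 : 2 * δ * M ≤ ε * D + C * (1 + Real.log ((W.card : ℝ) + 1)) := by
      have h8 : 2 * δ * D ≤ ε * D := mul_le_mul_of_nonneg_right hδ1 hD0
      have h9 : 2 * δ * (C * (1 + Real.log ((W.card : ℝ) + 1))) ≤
          1 * (C * (1 + Real.log ((W.card : ℝ) + 1))) := mul_le_mul_of_nonneg_right hδ2 hl0
      have : 2 * δ * M = 2 * δ * D + 2 * δ * (C * (1 + Real.log ((W.card : ℝ) + 1))) := by
        rw [hM]; ring
      linarith
    linarith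

end Pool.Agent.TH559.LE
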