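import Mathlib
import Pool.Agent.TH559.LE.Dense

set_option autoImplicit false

/-!
# Extending colourings to dense sets of edges
-/

namespace Pool.Agent.TH559.LE

open Finset

variable {V : Type}

theorem dg_sdiff [Fintype V] {A B : SimpleGraph V} (h : A ≤ B) (u : V) :
    dg A u + dg (B \ A) u = dg B u := by
  rw [dg, dg, dg, ← Set.ncard_union_eq _ (Set.toFinite _) (Set.toFinite _)]
  · congr 1
    ext v
    simp only [Set.mem_union, SimpleGraph.mem_neighborSet, SimpleGraph.sdiff_adj]
    constructor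
    · rintro (h' | h')
      · exact h h'
      · exact h'.1
    · intro h'
      by_cases hA : A.Adj u v
      · exact Or.inl hA
      · exact Or.inr ⟨h', hA⟩
  · rw [Set.disjoint_left]
    intro v h1 h2
    rw [SimpleGraph.mem_neighborSet] at h1 h2
    exact h2.2 h1

open Classical in
/-- The colours left for the edges outside `A`. -/
noncomputable def left (A : SimpleGraph V) (L : Sym2 V → Finset ℕ) (c : Sym2 V → ℕ)
    (z : Sym2 V) : Finset ℕ :=
  (L z).filter (fun γ => ∀ u ∈ z, ∀ w, A.Adj u w → c s(u, w) ≠ γ)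

theorem mem_left (A : SimpleGraph V) (L : Sym2 V → Finset ℕ) (c : Sym2 V → ℕ) (z : Sym2 V)
    (γ : ℕ) : γ ∈ left A L c z ↔ γ ∈ L z ∧ ∀ u ∈ z, ∀ w, A.Adj u w → c s(u, w) ≠ γ := by
  classical
  unfold left
  exact Finset.mem_filter

open Classical in
theorem card_left [Fintype V] (A : SimpleGraph V) (L : Sym2 V → Finset ℕ) (c : Sym2 V → ℕ)
    (u v : V) : (L s(u, v)).card ≤ (left A L c s(u, v)).card + dg A u + dg A v := by
  set I : V → Finset ℕ := fun u => (univ.filter (fun w => A.Adj u w)).image (fun w => c s(u, w))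
    with hI
  have hIc : ∀ u, (I u).card ≤ dg A u := by
    intro u
    rw [dg_eq]
    exact Finset.card_image_le
  have hsub : L s(u, v) ⊆ left A L c s(u, v) ∪ (I u ∪ I v) := by
    intro γ hγ
    rw [Finset.mem_union, mem_left]
    by_cases h : ∀ x ∈ s(u, v), ∀ w, A.Adj x w → c s(x, w) ≠ γ
    · exact Or.inl ⟨hγ, h⟩
    · right
      push Not at h
      obtain ⟨x, hx, w, hw, hc⟩ := h
      rw [Finset.mem_union]
      rcases Sym2.mem_iff.1 hx with rfl | rfl
      · left
        exact Finset.mem_image.2 ⟨w, by simpa using hw, hc⟩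
      · right
        exact Finset.mem_image.2 ⟨w, by simpa using hw, hc⟩
  have h1 := Finset.card_le_card hsub
  have h2 := Finset.card_union_le (left A L c s(u, v)) (I u ∪ I v)
  have h3 := Finset.card_union_le (I u) (I v)
  have h4 := hIc u
  have h5 := hIc v
  omega

theorem ok_glue (A B : SimpleGraph V) (L : Sym2 V → Finset ℕ) (c c' : Sym2 V → ℕ)
    (hc : Ok A L c) (hc' : Ok (B \ A) (left A L c) c') : ∃ c'', Ok B L c'' := by
  classical
  have hA : ∀ u v, A.Adj u v →
      (fun z => if z ∈ A.edgeSet then c z else c' z) s(u, v) = c s(u, v) := by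
    intro u v huv
    simp only
    rw [if_pos ((SimpleGraph.mem_edgeSet A).2 huv)]
  have hB : ∀ u v, ¬ A.Adj u v →
      (fun z => if z ∈ A.edgeSet then c z else c' z) s(u, v) = c' s(u, v) := by
    intro u v huv
    simp only
    rw [if_neg (fun h => huv ((SimpleGraph.mem_edgeSet A).1 h))]
  refine ⟨fun z => if z ∈ A.edgeSet then c z else c' z, ?_, ?_⟩
  · intro u v huv
    by_cases h : A.Adj u v
    · rw [hA u v h]
      exact hc.1 u v h
    · rw [hB u v h]
      have := hc'.1 u v ⟨huv, h⟩
      rw [mem_left] at this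
      exact this.1
  · intro u v w huv huw hne
    by_cases hv : A.Adj u v
    · by_cases hw : A.Adj u w
      · rw [hA u v hv, hA u w hw]
        exact hc.2 u v w hv hw hne
      · rw [hA u v hv, hB u w hw]
        have := hc'.1 u w ⟨huw, hw⟩
        rw [mem_left] at this
        exact this.2 u (Sym2.mem_mk_left _ _) v hv
    · by_cases hw : A.Adj u w
      · rw [hB u v hv, hA u w hw]
        have := hc'.1 u v ⟨huv, hv⟩
        rw [mem_left] at this
        exact (this.2 u (Sym2.mem_mk_left _ _) w hw).symm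
      · rw [hB u v hv, hB u w hw]
        exact hc'.2 u v w ⟨huv, hv⟩ ⟨huw, hw⟩ hne

/-- No set of edges of `H` is reducible with slack `s |W|`, where `W` contains the ends of its
edges. -/
def Irr2 (H : SimpleGraph V) (D : ℕ) (s : ℕ → ℝ) : Prop :=
  ∀ A : SimpleGraph V, A < H → ∀ W : Finset V,
    (∀ u v, H.Adj u v → ¬ A.Adj u v → u ∈ W) →
    ∃ u v, H.Adj u v ∧ ¬ A.Adj u v ∧ (D : ℝ) < dg H u + dg A v + s W.card

/-- The slack. -/
noncomputable def slack (D : ℕ) (ε K : ℝ) (n : ℕ) : ℝ := ε * D + K * (1 + Real.log (n + 1))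

theorem slack_mono (D : ℕ) (ε K : ℝ) (hK : 0 ≤ K) {m n : ℕ} (h : m ≤ n) :
    slack D ε K m ≤ slack D ε K n := by
  unfold slack
  have h1 : (m : ℝ) ≤ n := by exact_mod_cast h
  have h2 : Real.log ((m : ℝ) + 1) ≤ Real.log (n + 1) :=
    Real.log_le_log (by positivity) (by linarith)
  have := mul_le_mul_of_nonneg_left (by linarith : 1 + Real.log ((m : ℝ) + 1) ≤
    1 + Real.log (n + 1)) hK
  linarith

/-- Either all graphs can be coloured or there is an irreducible subgraph. -/
theorem exists_irr (ε : ℝ) (hε : 0 < ε) : ∃ K : ℝ, 0 < K ∧ ∀ (V : Type) [Fintype V]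
    (G : SimpleGraph V) (D : ℕ), (∀ v, dg G v ≤ D) →
    (∀ H : SimpleGraph V, H ≤ G → H ≠ ⊥ → ¬ (Irr H D ∧ Irr2 H D (slack D ε K))) →
    Choosable G D := by
  obtain ⟨K, hK, hN⟩ := local_lists ε hε
  refine ⟨K, hK, ?_⟩
  intro V _ G D hD h
  rw [choosable_iff]
  intro L hL
  by_contra hcon
  have hfin : {H : SimpleGraph V | H ≤ G ∧ ¬ ∃ c, Ok H L c}.Finite := Set.toFinite _
  obtain ⟨H, hH, hmin⟩ := hfin.exists_minimal ⟨G, le_rfl, hcon⟩
  have hne : H ≠ ⊥ := by
    rintro rfl
    exact hH.2 (ok_bot L)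
  have hsub : ∀ A : SimpleGraph V, A < H → ∃ c, Ok A L c := by
    intro A hA
    by_contra hno
    have := hmin (y := A) ⟨hA.le.trans hH.1, hno⟩ hA.le
    exact absurd this (not_le_of_gt hA)
  apply h H hH.1 hne
  constructor
  · intro A hA X hX
    by_contra hno
    push Not at hno
    obtain ⟨c, hc⟩ := hsub A hA
    apply hH.2
    refine ext A H hA.le X hX L ?_ c hc
    intro u v h1 h2
    have := hno u v h1 h2
    have := hL u v (hH.1 h1)
    omega
  · intro A hA W hW
    by_contra hno
    push Not at hno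
    obtain ⟨c, hc⟩ := hsub A hA
    apply hH.2
    obtain ⟨c', hc'⟩ := hN V (H \ A) D W (left A L c) (by
      intro u
      have h1 := dg_sdiff hA.le u
      have h2 := dg_mono hH.1 u
      have h3 := hD u
      omega) (fun u v huv => hW u v huv.1 huv.2) (by
      intro u v huv
      have h1 := hno u v huv.1 huv.2
      have h2 := hL u v (hH.1 huv.1)
      have h3 := card_left A L c u v
      have h4 := dg_sdiff hA.le u
      have h3' : ((L s(u, v)).card : ℝ) ≤ (left A L c s(u, v)).card + dg A u + dg A v := by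
        exact_mod_cast h3
      have h4' : (dg A u : ℝ) + dg (H \ A) u = dg H u := by exact_mod_cast h4
      have h2' : (D : ℝ) ≤ (L s(u, v)).card := by exact_mod_cast h2
      unfold slack at h1
      linarith)
    exact ok_glue A H L c c' hc hc'

open Classical in
/-- The three cases for the vertices of degree at most `k` with slack. -/
theorem irr2_three [Fintype V] {H : SimpleGraph V} {D : ℕ} {s : ℕ → ℝ} (hI : Irr H D)
    (hI2 : Irr2 H D s) (hne : H ≠ ⊥) (hD : ∀ v, dg H v ≤ D) (k : ℕ) :
    (∃ y, (D : ℝ) < k + (univ.filter (fun w => H.Adj y w ∧ k < dg H w)).card +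
      s (univ.filter (fun v => 0 < dg H v ∧ D + 2 ≤ dg H v + k)).card) ∨
    (∃ y, k < dg H y ∧ D + 1 ≤ k + (univ.filter (fun w => H.Adj y w ∧ k < dg H w)).card) ∨
    (∃ y, k < dg H y ∧ (D : ℝ) < (univ.filter (fun w => H.Adj y w ∧ k < dg H w)).card +
      s (univ.filter (fun v => 0 < dg H v ∧ k < dg H v)).card) := by
  by_cases h1 : ∃ u v, H.Adj u v ∧ dg H u ≤ k
  · obtain ⟨u, v, huv, hu⟩ := h1
    by_cases h2 : ∃ u v, H.Adj u v ∧ dg H u ≤ k ∧ dg H v ≤ k
    · left
      obtain ⟨u, v, huv, hu, hv⟩ := h2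
      let A : SimpleGraph V :=
        { Adj := fun a b => H.Adj a b ∧ (k < dg H a ∨ k < dg H b)
          symm := ⟨fun a b h => ⟨h.1.symm, h.2.symm⟩⟩
          loopless := ⟨fun a h => H.loopless.irrefl a h.1⟩ }
      have hA : ∀ a b, A.Adj a b ↔ H.Adj a b ∧ (k < dg H a ∨ k < dg H b) := fun _ _ => Iff.rfl
      obtain ⟨x, y, h3, h4, h5⟩ := hI2 A (by
          refine lt_of_le_of_ne (fun a b h => h.1) ?_
          intro heq
          have : A.Adj u v := by rw [heq]; exact huv
          rcases this.2 with h | h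
          · omega
          · omega) (univ.filter (fun v => 0 < dg H v ∧ D + 2 ≤ dg H v + k)) (by
          intro a b h3 h4
          rw [hA] at h4
          push Not at h4
          have h5 := h4 h3
          have h6 := irr_edge hI h3
          rw [Finset.mem_filter]
          exact ⟨mem_univ _, dg_pos h3, by omega⟩)
      rw [hA] at h4
      push Not at h4
      have h6 := h4 h3
      refine ⟨y, lt_of_lt_of_le h5 ?_⟩
      have h7 : dg A y ≤ (univ.filter (fun w => H.Adj y w ∧ k < dg H w)).card := by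
        rw [dg_eq]
        apply Finset.card_le_card
        intro w hw
        rw [Finset.mem_filter] at hw ⊢
        have hw' := (hA _ _).1 hw.2
        refine ⟨mem_univ _, hw'.1, ?_⟩
        rcases hw'.2 with h | h
        · omega
        · exact h
      have h7' : (dg A y : ℝ) ≤ (univ.filter (fun w => H.Adj y w ∧ k < dg H w)).card := by
        exact_mod_cast h7
      have h8 : (dg H x : ℝ) ≤ k := by exact_mod_cast h6.1
      linarith
    · right; left
      push Not at h2
      exact irr_small hI hD k h2 huv hu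
  · right; right
    push Not at h1
    obtain ⟨u, v, huv⟩ := ne_bot hne
    obtain ⟨x, y, h3, h4, h5⟩ := hI2 ⊥ (bot_lt_iff_ne_bot.2 hne)
      (univ.filter (fun v => 0 < dg H v ∧ k < dg H v)) (by
        intro a b h3 _
        rw [Finset.mem_filter]
        exact ⟨mem_univ _, dg_pos h3, h1 a b h3⟩)
    refine ⟨x, h1 x y h3, ?_⟩
    rw [dg_bot] at h5
    have h2 : (univ.filter (fun w => H.Adj x w ∧ k < dg H w)).card = dg H x := by
      rw [dg_eq]
      congr 1
      ext w
      simp only [mem_filter, mem_univ, true_and, and_iff_left_iff_imp]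
      intro h
      exact h1 w x h.symm
    rw [h2]
    push_cast at h5
    linarith

end Pool.Agent.TH559.LE
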