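import Mathlib
import Pool.Agent.TH559.LE.Ext2

set_option autoImplicit false

/-!
# Graphs with few edges, asymptotically
-/

namespace Pool.Agent.TH559.LE

open Finset

variable {V : Type}

/-- Few neighbours of degree more than `k`. -/
theorem dense_k (ε : ℝ) (hε : 0 < ε) : ∃ K : ℝ, 0 < K ∧ ∀ (V : Type) [Fintype V]
    (G : SimpleGraph V) (D k : ℕ), (∀ v, dg G v ≤ D) →
    ((∀ v, ({w | G.Adj v w ∧ k < (G.neighborSet w).ncard}.ncard : ℝ) + k +
        (ε * D + K * (1 + Real.log (Fintype.card V + 1))) ≤ D) ∨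
      (2 * k ≤ D + 1 ∧ ∀ v, k < dg G v →
        {w | G.Adj v w ∧ k < (G.neighborSet w).ncard}.ncard + k ≤ D ∧
        ({w | G.Adj v w ∧ k < (G.neighborSet w).ncard}.ncard : ℝ) +
          (ε * D + K * (1 + Real.log (Fintype.card V + 1))) ≤ D)) →
    Choosable G D := by
  classical
  obtain ⟨K, hK0, hK⟩ := exists_irr ε hε
  refine ⟨K, hK0, ?_⟩
  intro V _ G D k hD hk
  apply hK V G D hD
  rintro H hH hne ⟨hI, hI2⟩
  have conv : ∀ y : V, (univ.filter (fun w => H.Adj y w ∧ k < dg H w)).card ≤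
      {w | G.Adj y w ∧ k < (G.neighborSet w).ncard}.ncard := by
    intro y
    rw [← Set.ncard_coe_finset]
    apply Set.ncard_le_ncard _ (Set.toFinite _)
    intro w hw
    rw [Finset.mem_coe, Finset.mem_filter] at hw
    exact ⟨hH hw.2.1, lt_of_lt_of_le hw.2.2 (dg_mono hH w)⟩
  have convR : ∀ y : V, ((univ.filter (fun w => H.Adj y w ∧ k < dg H w)).card : ℝ) ≤
      ({w | G.Adj y w ∧ k < (G.neighborSet w).ncard}.ncard : ℝ) := by
    intro y
    exact_mod_cast conv y
  have hW : ∀ W : Finset V, slack D ε K W.card ≤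
      ε * D + K * (1 + Real.log (Fintype.card V + 1)) := by
    intro W
    exact slack_mono D ε K hK0.le (Finset.card_le_univ W)
  have hk0 : (0 : ℝ) ≤ k := by positivity
  have hs0 : 0 ≤ ε * D + K * (1 + Real.log ((Fintype.card V : ℝ) + 1)) := by
    have := one_le_log_add (Fintype.card V)
    have : 0 ≤ K * (1 + Real.log ((Fintype.card V : ℝ) + 1)) :=
      mul_nonneg hK0.le (by linarith)
    have : 0 ≤ ε * (D : ℝ) := by positivity
    linarith
  rcases hk with hk | ⟨h2k, hk⟩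
  · rcases irr2_three hI hI2 hne (fun v => (dg_mono hH v).trans (hD v)) k with
      ⟨y, h⟩ | ⟨y, hy, h⟩ | ⟨y, hy, h⟩
    · have h1 := convR y
      have h2 := hk y
      have h3 := hW (univ.filter (fun v => 0 < dg H v ∧ D + 2 ≤ dg H v + k))
      linarith
    · have h1 := convR y
      have h2 := hk y
      have h3 : ((D + 1 : ℕ) : ℝ) ≤
          ((k + (univ.filter (fun w => H.Adj y w ∧ k < dg H w)).card : ℕ) : ℝ) := by
        exact_mod_cast h
      push_cast at h3
      linarith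
    · have h1 := convR y
      have h2 := hk y
      have h3 := hW (univ.filter (fun v => 0 < dg H v ∧ k < dg H v))
      linarith
  · have hHD : ∀ v, dg H v ≤ D := fun v => (dg_mono hH v).trans (hD v)
    by_cases h1 : ∃ u v, H.Adj u v ∧ dg H u ≤ k
    · obtain ⟨u, v, huv, hu⟩ := h1
      have h2 : ∀ u v, H.Adj u v → dg H u ≤ k → k < dg H v := by
        intro u v huv hu
        have := irr_edge hI huv
        omega
      obtain ⟨y, hy, h⟩ := irr_small hI hHD k h2 huv hu
      have h3 := conv y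
      have h4 := (hk y (lt_of_lt_of_le hy (dg_mono hH y))).1
      omega
    · push Not at h1
      obtain ⟨x, y, h3, h4, h5⟩ := hI2 ⊥ (bot_lt_iff_ne_bot.2 hne) univ
        (fun _ _ _ _ => mem_univ _)
      rw [dg_bot] at h5
      have h2 : (univ.filter (fun w => H.Adj x w ∧ k < dg H w)).card = dg H x := by
        rw [dg_eq]
        congr 1
        ext w
        simp only [mem_filter, mem_univ, true_and, and_iff_left_iff_imp]
        intro h
        exact h1 w x h.symm
      have h6 := convR x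
      rw [h2] at h6
      have h7 := (hk x (lt_of_lt_of_le (h1 x y h3) (dg_mono hH x))).2
      have h8 := hW univ
      push_cast at h5
      linarith

open Classical in
theorem sum_levels [Fintype V] (H : SimpleGraph V) (c : ℕ) :
    ∑ k ∈ range c, (univ.filter (fun v => k < dg H v)).card ≤ ∑ v, dg H v := by
  simp_rw [Finset.card_filter]
  rw [Finset.sum_comm]
  apply Finset.sum_le_sum
  intro v _
  rw [← Finset.card_filter]
  calc ((range c).filter (fun k => k < dg H v)).card ≤ (range (dg H v)).card := by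
        apply Finset.card_le_card
        intro k hk
        rw [Finset.mem_filter] at hk
        exact Finset.mem_range.2 hk.2
    _ = dg H v := Finset.card_range _

theorem telescopeR (f P : ℕ → ℝ) (a b : ℕ) (hab : a ≤ b)
    (h : ∀ k, a ≤ k → k < b → P (k + 1) - P k ≤ f k) :
    P b - P a ≤ ∑ k ∈ range b, f k - ∑ k ∈ range a, f k := by
  induction b, hab using Nat.le_induction with
  | base => simp
  | succ b hab ih =>
    rw [Finset.sum_range_succ]
    have h1 := ih (fun k hk hk' => h k hk (by omega))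
    have h2 := h b hab (by omega)
    linarith

theorem card_mul_le [Fintype V] (H : SimpleGraph V) (W : Finset V) (x : ℝ)
    (h : ∀ v ∈ W, x ≤ dg H v) : (W.card : ℝ) * x ≤ ((∑ v, dg H v : ℕ) : ℝ) := by
  calc (W.card : ℝ) * x = ∑ v ∈ W, x := by rw [Finset.sum_const, nsmul_eq_mul]
    _ ≤ ∑ v ∈ W, (dg H v : ℝ) := Finset.sum_le_sum h
    _ ≤ ∑ v, (dg H v : ℝ) := Finset.sum_le_sum_of_subset_of_nonneg (Finset.subset_univ _)
        (fun v _ _ => by positivity)
    _ = _ := by push_cast; rfl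

theorem log_small (K δ : ℝ) (hK : 0 < K) (hδ : 0 < δ) : ∃ D₁ : ℕ, ∀ D : ℕ, D₁ ≤ D →
    K * (1 + Real.log ((D : ℝ) / (2 * δ) + 1)) ≤ δ * D / 4 := by
  have h1 := Real.isLittleO_log_id_atTop.def (show (0 : ℝ) < δ ^ 2 / (4 * K) by positivity)
  rw [Filter.eventually_atTop] at h1
  obtain ⟨X, hX⟩ := h1
  obtain ⟨D₁, hD₁⟩ := exists_nat_gt (max (2 * δ * X) (8 * (K + δ ^ 2 / 4) / δ))
  refine ⟨D₁, fun D hD => ?_⟩
  have hDr : (D₁ : ℝ) ≤ D := by exact_mod_cast hD
  have hDX : 2 * δ * X < D := lt_of_le_of_lt (le_max_left _ _) (lt_of_lt_of_le hD₁ hDr)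
  have hDK : 8 * (K + δ ^ 2 / 4) / δ < D :=
    lt_of_le_of_lt (le_max_right _ _) (lt_of_lt_of_le hD₁ hDr)
  have hD0 : (0 : ℝ) ≤ D := by positivity
  set y : ℝ := (D : ℝ) / (2 * δ) + 1 with hy
  have hyX : X ≤ y := by
    have : X < D / (2 * δ) := by
      rw [lt_div_iff₀ (by positivity)]
      linarith
    linarith
  have hy1 : 1 ≤ y := by
    have : 0 ≤ (D : ℝ) / (2 * δ) := by positivity
    linarith
  have h2 := hX y hyX
  rw [Real.norm_of_nonneg (Real.log_nonneg hy1), id, Real.norm_of_nonneg (by linarith)] at h2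
  have h3 : K * Real.log y ≤ δ ^ 2 / 4 * y := by
    have := mul_le_mul_of_nonneg_left h2 hK.le
    have e : K * (δ ^ 2 / (4 * K) * y) = δ ^ 2 / 4 * y := by field_simp
    linarith
  have h4 : δ ^ 2 / 4 * y = δ * D / 8 + δ ^ 2 / 4 := by
    rw [hy]; field_simp; ring
  rw [div_lt_iff₀ hδ] at hDK
  linarith

/-- Graphs with at most `(1 / 4 - ε) D²` heavy edges. -/
theorem quarter (ε : ℝ) (hε : 0 < ε) : ∃ D₀ : ℕ, ∀ (V : Type) [Fintype V] (G : SimpleGraph V)
    (D : ℕ), D₀ ≤ D → (∀ v, dg G v ≤ D) →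
    ((heavy G D).edgeSet.ncard : ℝ) ≤ (1 / 4 - ε) * D ^ 2 → Choosable G D := by
  classical
  rcases lt_or_ge ε (1 / 4) with hε4 | hε4
  swap
  · refine ⟨0, ?_⟩
    intro V _ G D _ _ hE
    apply of_not_irr
    intro H hH hne hI
    have h1 : ((heavy G D).edgeSet.ncard : ℝ) ≤ 0 := by
      refine hE.trans ?_
      have : (0 : ℝ) ≤ (D : ℝ) ^ 2 := by positivity
      nlinarith
    have h2 : (heavy G D).edgeSet.ncard = 0 := by
      have : (heavy G D).edgeSet.ncard ≤ 0 := by exact_mod_cast h1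
      omega
    rw [Set.ncard_eq_zero (Set.toFinite _)] at h2
    obtain ⟨u, v, huv⟩ := ne_bot hne
    have : s(u, v) ∈ (heavy G D).edgeSet :=
      (SimpleGraph.mem_edgeSet _).2 (irr_heavy hH hI huv)
    rw [h2] at this
    exact this
  set δ : ℝ := ε / 2 with hδ
  have hδ0 : 0 < δ := by positivity
  have hδ8 : δ < 1 / 8 := by rw [hδ]; linarith
  obtain ⟨K, hK0, hK⟩ := exists_irr (δ / 2) (by positivity)
  obtain ⟨D₁, hD₁⟩ := log_small K δ hK0 hδ0
  obtain ⟨D₂, hD₂⟩ := exists_nat_gt (4 / δ)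
  refine ⟨max D₁ D₂, ?_⟩
  intro V _ G D hD0 hD hE
  have hN1 := hD₁ D (le_trans (le_max_left _ _) hD0)
  have hDb : (D₂ : ℝ) ≤ D := by exact_mod_cast le_trans (le_max_right _ _) hD0
  have hD4 : 4 < δ * D := by
    have : 4 / δ < D := lt_of_lt_of_le hD₂ hDb
    rw [div_lt_iff₀ hδ0] at this
    linarith
  have hDpos : (0 : ℝ) < D := by
    by_contra hcon
    have : (D : ℝ) ≤ 0 := not_lt.1 hcon
    nlinarith
  apply hK V G D hD
  rintro H hH hne ⟨hI, hI2⟩
  have hHD : ∀ v, dg H v ≤ D := fun v => (dg_mono hH v).trans (hD v)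
  set S : ℕ := ∑ v, dg H v with hS
  have hSE : (S : ℝ) ≤ (1 / 2 - 4 * δ) * D ^ 2 := by
    have h1 : S = 2 * H.edgeSet.ncard := sum_dg H
    have h2 : H.edgeSet.ncard ≤ (heavy G D).edgeSet.ncard :=
      Set.ncard_le_ncard (SimpleGraph.edgeSet_mono (irr_heavy hH hI)) (Set.toFinite _)
    have h3 : (H.edgeSet.ncard : ℝ) ≤ (heavy G D).edgeSet.ncard := by exact_mod_cast h2
    rw [h1]
    push_cast
    have h4 : (2 : ℝ) * ((1 / 4 - ε) * D ^ 2) = (1 / 2 - 4 * δ) * D ^ 2 := by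
      rw [hδ]; ring
    linarith
  have hSD : (S : ℝ) ≤ D ^ 2 / 2 := by
    have : 0 ≤ 4 * δ * (D : ℝ) ^ 2 := by positivity
    linarith
  have hWb : ∀ W : Finset V, (∀ v ∈ W, δ * D ≤ dg H v) → slack D (δ / 2) K W.card ≤ δ * D := by
    intro W hW
    have h1 := card_mul_le H W (δ * D) hW
    rw [← hS] at h1
    have h2 : (W.card : ℝ) * (δ * D) ≤ D ^ 2 / 2 := h1.trans hSD
    have h3 : (W.card : ℝ) * δ ≤ D / 2 := by
      by_contra hcon
      have := not_le.1 hcon
      nlinarith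
    have h4 : (W.card : ℝ) ≤ D / (2 * δ) := by
      rw [le_div_iff₀ (by positivity)]
      linarith
    have h5 : Real.log ((W.card : ℝ) + 1) ≤ Real.log ((D : ℝ) / (2 * δ) + 1) :=
      Real.log_le_log (by positivity) (by linarith)
    have h6 := mul_le_mul_of_nonneg_left h5 hK0.le
    unfold slack
    nlinarith
  set M : ℕ → ℕ := fun k => (univ.filter (fun v => k < dg H v)).card with hM
  have hsub : ∀ k y, (univ.filter (fun w => H.Adj y w ∧ k < dg H w)).card ≤ M k := by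
    intro k y
    apply Finset.card_le_card
    intro w hw
    rw [Finset.mem_filter] at hw ⊢
    exact ⟨mem_univ _, hw.2.2⟩
  have key : ∀ k : ℕ, δ * D ≤ k → (k : ℝ) ≤ (1 - δ) * D → (1 - δ) * D - k ≤ M k := by
    intro k hk1 hk2
    rcases irr2_three hI hI2 hne hHD k with ⟨y, h⟩ | ⟨y, hy, h⟩ | ⟨y, hy, h⟩
    · have h1 : ((univ.filter (fun w => H.Adj y w ∧ k < dg H w)).card : ℝ) ≤ M k := by
        exact_mod_cast hsub k y
      have h2 := hWb (univ.filter (fun v => 0 < dg H v ∧ D + 2 ≤ dg H v + k)) (by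
        intro v hv
        rw [Finset.mem_filter] at hv
        have : ((D + 2 : ℕ) : ℝ) ≤ ((dg H v + k : ℕ) : ℝ) := by exact_mod_cast hv.2.2
        push_cast at this
        linarith)
      linarith
    · have h1 : ((univ.filter (fun w => H.Adj y w ∧ k < dg H w)).card : ℝ) ≤ M k := by
        exact_mod_cast hsub k y
      have h3 : ((D + 1 : ℕ) : ℝ) ≤
          ((k + (univ.filter (fun w => H.Adj y w ∧ k < dg H w)).card : ℕ) : ℝ) := by
        exact_mod_cast h
      push_cast at h3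
      have : 0 < δ * D := by positivity
      linarith
    · have h1 : ((univ.filter (fun w => H.Adj y w ∧ k < dg H w)).card : ℝ) ≤ M k := by
        exact_mod_cast hsub k y
      have h2 := hWb (univ.filter (fun v => 0 < dg H v ∧ k < dg H v)) (by
        intro v hv
        rw [Finset.mem_filter] at hv
        have : (k : ℝ) ≤ dg H v := by exact_mod_cast hv.2.2.le
        linarith)
      have : (0 : ℝ) ≤ k := by positivity
      linarith
  set a : ℕ := ⌈δ * D⌉₊ with ha
  set b : ℕ := ⌊(1 - δ) * D⌋₊ with hb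
  have hc0 : 0 ≤ (1 - δ) * D := by
    apply mul_nonneg _ hDpos.le
    linarith
  have ha1 : δ * D ≤ a := Nat.le_ceil _
  have ha2 : (a : ℝ) ≤ δ * D + 1 := (Nat.ceil_lt_add_one (by positivity)).le
  have hb1 : (b : ℝ) ≤ (1 - δ) * D := Nat.floor_le hc0
  have hb2 : (1 - δ) * D - 1 ≤ b := (Nat.sub_one_lt_floor _).le
  have hDm : (1 - 2 * δ) * D - 2 ≥ 0 := by
    have h1 : δ * D ≤ 1 / 8 * D := mul_le_mul_of_nonneg_right hδ8.le hDpos.le
    have h2 : (1 - 2 * δ) * D = D - 2 * (δ * D) := by ring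
    rw [h2]
    linarith
  have hab' : (a : ℝ) ≤ b := by
    have h2 : (1 - 2 * δ) * D = (1 - δ) * D - δ * D := by ring
    rw [h2] at hDm
    linarith
  have hab : a ≤ b := by exact_mod_cast hab'
  have t := telescopeR (fun k => (M k : ℝ)) (fun k => (1 - δ) * D * k - (k : ℝ) ^ 2 / 2) a b hab (by
    intro k hk1 hk2
    have h1 : (a : ℝ) ≤ k := by exact_mod_cast hk1
    have h2 : (k : ℝ) ≤ b := by exact_mod_cast hk2.le
    have h3 := key k (by linarith) (by linarith)
    push_cast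
    nlinarith)
  have t1 : (∑ k ∈ range b, (M k : ℝ)) ≤ S := by
    have := sum_levels H b
    exact_mod_cast this
  have t2 : 0 ≤ ∑ k ∈ range a, (M k : ℝ) := Finset.sum_nonneg (fun k _ => by positivity)
  have t3 : (1 - δ) * D * b - (b : ℝ) ^ 2 / 2 - ((1 - δ) * D * a - (a : ℝ) ^ 2 / 2) ≤ S := by
    linarith
  have t4 : (1 - δ) * D * b - (b : ℝ) ^ 2 / 2 - ((1 - δ) * D * a - (a : ℝ) ^ 2 / 2) =
      ((b : ℝ) - a) * ((1 - δ) * D - (a + b) / 2) := by ring
  rw [t4] at t3
  have t5 : ((1 - 2 * δ) * D - 2) ≤ (b : ℝ) - a := by linarith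
  have t6 : ((1 - 2 * δ) * D - 2) / 2 ≤ (1 - δ) * D - (a + b) / 2 := by linarith
  have t7 : 0 ≤ (1 - 2 * δ) * D - 2 := hDm
  have t8 : ((1 - 2 * δ) * D - 2) * (((1 - 2 * δ) * D - 2) / 2) ≤
      ((b : ℝ) - a) * ((1 - δ) * D - (a + b) / 2) :=
    mul_le_mul t5 t6 (by positivity) (by linarith)
  have t9 : ((1 - 2 * δ) * D - 2) * (((1 - 2 * δ) * D - 2) / 2) ≤ (1 / 2 - 4 * δ) * D ^ 2 := by
    linarith
  have e9 : ((1 - 2 * δ) * D - 2) * (((1 - 2 * δ) * D - 2) / 2) =
      (1 / 2 - 4 * δ) * D ^ 2 + 2 * δ * D * D + 2 * (δ * D) ^ 2 - 2 * D + 4 * (δ * D) + 2 := by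
    ring
  rw [e9] at t9
  have e10 : 4 * (D : ℝ) < δ * D * D := mul_lt_mul_of_pos_right hD4 hDpos
  have e11 : 0 ≤ 2 * (δ * (D : ℝ)) ^ 2 := by positivity
  linarith

end Pool.Agent.TH559.LE
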