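import Mathlib
import Pool.Agent.TH559.LE.Quarter

set_option autoImplicit false

/-!
# The number of edges of graphs which are not edge-choosable from lists of maximum degree size
-/

namespace Pool.Agent.TH559.LE

open Finset Filter

/-- Graphs with all degrees at most `D` and at most `x (D + 2)²` heavy edges are
`D`-edge-choosable. -/
def Good (D : ℕ) (x : ℝ) : Prop := ∀ (V : Type) [Fintype V] (G : SimpleGraph V),
  (∀ v, dg G v ≤ D) → ((heavy G D).edgeSet.ncard : ℝ) ≤ x * ((D : ℝ) + 2) ^ 2 → Choosable G D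

theorem good_mono {D : ℕ} {x y : ℝ} (hxy : x ≤ y) (h : Good D y) : Good D x := by
  intro V _ G hD hE
  exact h V G hD (hE.trans (mul_le_mul_of_nonneg_right hxy (by positivity)))

theorem good_13_72 (D : ℕ) : Good D (13 / 72) := by
  intro V _ G hD hE
  apply of_few G D hD
  have h : (72 : ℝ) * (heavy G D).edgeSet.ncard ≤ 13 * ((D : ℝ) + 2) ^ 2 := by linarith
  exact_mod_cast h

theorem good_quarter (ε : ℝ) (hε : 0 < ε) : ∃ D₀ : ℕ, ∀ D : ℕ, D₀ ≤ D → Good D (1 / 4 - ε) := by
  obtain ⟨D₀, hD₀⟩ := quarter (ε / 2) (by positivity)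
  obtain ⟨D₁, hD₁⟩ := exists_nat_gt (2 * (1 + 2 / ε))
  refine ⟨max D₀ D₁, ?_⟩
  intro D hD V _ G hdeg hE
  apply hD₀ V G D (le_trans (le_max_left _ _) hD) hdeg
  refine hE.trans ?_
  have h1 : (D₁ : ℝ) ≤ D := by exact_mod_cast le_trans (le_max_right _ _) hD
  have h2 : 2 * (1 + 2 / ε) < D := lt_of_lt_of_le hD₁ h1
  have h3 : 2 + 4 / ε < D := by
    have : 2 * (1 + 2 / ε) = 2 + 4 / ε := by ring
    linarith
  have h4 : 0 < 4 / ε := by positivity
  have hD2 : 2 < (D : ℝ) := by linarith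
  have h5 : 4 < ε * (D - 2) := by
    have : 4 / ε < D - 2 := by linarith
    rw [div_lt_iff₀ hε] at this
    linarith
  -- `(1/4 - ε)(D+2)² ≤ (1/4 - ε/2) D²`
  have h6 : (1 / 4 - ε) * ((D : ℝ) + 2) ^ 2 - (1 / 4 - ε / 2) * D ^ 2 =
      D + 1 - ε / 2 * D ^ 2 - 4 * ε * D - 4 * ε := by ring
  have h7 : 4 * (D : ℝ) ≤ ε * (D - 2) * D := mul_le_mul_of_nonneg_right h5.le (by linarith)
  have h8 : 0 < ε * D := by positivity
  nlinarith

/-- The best constant. -/
noncomputable def cst (D : ℕ) : ℝ := sSup {x : ℝ | x ≤ 1 / 4 ∧ Good D x}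

theorem cst_bdd (D : ℕ) : BddAbove {x : ℝ | x ≤ 1 / 4 ∧ Good D x} := ⟨1 / 4, fun _ hx => hx.1⟩

theorem le_cst {D : ℕ} {x : ℝ} (h1 : x ≤ 1 / 4) (h2 : Good D x) : x ≤ cst D :=
  le_csSup (cst_bdd D) ⟨h1, h2⟩

theorem cst_ge (D : ℕ) : 13 / 72 ≤ cst D := le_cst (by norm_num) (good_13_72 D)

theorem cst_le (D : ℕ) : cst D ≤ 1 / 4 :=
  csSup_le ⟨13 / 72, by norm_num, good_13_72 D⟩ (fun _ hx => hx.1)

theorem cst_tendsto : Tendsto cst atTop (nhds (1 / 4)) := by
  rw [Metric.tendsto_atTop]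
  intro ε hε
  obtain ⟨D₀, hD₀⟩ := good_quarter (ε / 2) (by positivity)
  refine ⟨D₀, fun D hD => ?_⟩
  have h1 := le_cst (by linarith) (hD₀ D hD)
  have h2 := cst_le D
  rw [Real.dist_eq, abs_lt]
  constructor <;> linarith

theorem of_cst (V : Type) [Fintype V] (G : SimpleGraph V) (D : ℕ) (hD : ∀ v, dg G v ≤ D)
    (hE : ((heavy G D).edgeSet.ncard : ℝ) < cst D * ((D : ℝ) + 2) ^ 2) : Choosable G D := by
  have hpos : (0 : ℝ) < ((D : ℝ) + 2) ^ 2 := by positivity
  have h1 : ((heavy G D).edgeSet.ncard : ℝ) / ((D : ℝ) + 2) ^ 2 < cst D := by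
    rw [div_lt_iff₀ hpos]
    exact hE
  obtain ⟨x, ⟨_, hx⟩, hlt⟩ := exists_lt_of_lt_csSup
    (⟨13 / 72, by norm_num, good_13_72 D⟩ : {x : ℝ | x ≤ 1 / 4 ∧ Good D x}.Nonempty) h1
  apply hx V G hD
  rw [div_lt_iff₀ hpos] at hlt
  exact hlt.le

/-- The edges of `A` in the component of `v`. -/
def comp {V : Type} (A : SimpleGraph V) (v : V) : SimpleGraph V where
  Adj a b := A.Adj a b ∧ A.Reachable v a
  symm := ⟨fun _ _ h => ⟨h.1.symm, h.2.trans h.1.reachable⟩⟩
  loopless := ⟨fun _ h => A.loopless.irrefl _ h.1⟩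

theorem comp_le {V : Type} (A : SimpleGraph V) (v : V) : comp A v ≤ A := fun _ _ h => h.1

/-- Colourings of the components give a colouring. -/
theorem choosable_of_comp {V : Type} (A : SimpleGraph V) (D : ℕ)
    (h : ∀ v, Choosable (comp A v) D) : Choosable A D := by
  classical
  rw [choosable_iff]
  intro L hL
  have h' : ∀ v, ∃ c, Ok (comp A v) L c := by
    intro v
    exact (choosable_iff _ _).1 (h v) L (fun a b hab => hL a b hab.1)
  choose c hc using h'
  let rep : V → V := fun a => Quot.out (A.connectedComponentMk a)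
  have hrep1 : ∀ a, A.Reachable (rep a) a := by
    intro a
    apply SimpleGraph.ConnectedComponent.exact
    exact Quot.out_eq (A.connectedComponentMk a)
  have hrep2 : ∀ a b, A.Reachable a b → rep a = rep b := by
    intro a b hab
    simp only [rep]
    rw [SimpleGraph.ConnectedComponent.sound hab]
  have key : ∀ a b, A.Adj a b →
      (fun z : Sym2 V => c (rep (Quot.out z).1) z) s(a, b) = c (rep a) s(a, b) := by
    intro a b hab
    have h1 : (Quot.out s(a, b)).1 ∈ s(a, b) := Sym2.out_fst_mem _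
    have h2 : rep (Quot.out s(a, b)).1 = rep a := by
      rcases Sym2.mem_iff.1 h1 with h | h
      · rw [h]
      · rw [h]
        exact hrep2 b a hab.symm.reachable
    simp only
    rw [h2]
  refine ⟨fun z : Sym2 V => c (rep (Quot.out z).1) z, ?_, ?_⟩
  · intro a b hab
    rw [key a b hab]
    exact (hc (rep a)).1 a b ⟨hab, hrep1 a⟩
  · intro a b d hab had hne
    rw [key a b hab, key a d had]
    exact (hc (rep a)).2 a b d ⟨hab, hrep1 a⟩ ⟨had, hrep1 a⟩ hne

/-- Light edges can be coloured greedily. -/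
theorem choosable_of_heavy {V : Type} [Fintype V] (G : SimpleGraph V) (D : ℕ)
    (h : Choosable (heavy G D) D) : Choosable G D := by
  rw [choosable_iff] at h ⊢
  intro L hL
  apply greedy G (heavy G D) (fun _ _ h => h.1) L (h L (fun u v huv => hL u v huv.1))
  intro u v huv hno
  have h1 := hL u v huv
  have h2 : ¬ (D + 2 ≤ (G.neighborSet u).ncard + (G.neighborSet v).ncard) :=
    fun h => hno ⟨huv, h⟩
  unfold dg
  omega

theorem of_cst' (V : Type) [Fintype V] (G : SimpleGraph V) (D : ℕ) (hD : ∀ v, dg G v ≤ D)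
    (hE : ∀ v, ((comp (heavy G D) v).edgeSet.ncard : ℝ) < cst D * ((D : ℝ) + 2) ^ 2) :
    Choosable G D := by
  apply choosable_of_heavy
  apply choosable_of_comp
  intro v
  apply of_cst
  · intro u
    have hle : comp (heavy G D) v ≤ G := fun _ _ h => h.1.1
    exact (dg_mono hle u).trans (hD u)
  · refine lt_of_le_of_lt ?_ (hE v)
    have : (heavy (comp (heavy G D) v) D).edgeSet.ncard ≤
        (comp (heavy G D) v).edgeSet.ncard :=
      Set.ncard_le_ncard (SimpleGraph.edgeSet_mono (fun _ _ h => h.1)) (Set.toFinite _)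
    exact_mod_cast this

end Pool.Agent.TH559.LE
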